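import Mathlib

/-!
# LEAF A1: Bonferroni inequalities (Mathlib only)
-/

namespace FB

open Finset

private theorem A1_alt (Y r : ℕ) : ∑ j ∈ range (r + 1), (-1 : ℝ) ^ j * ((Y + 1).choose j : ℝ) = (-1) ^ r * (Y.choose r : ℝ) := by
  induction r with
  | zero => simp
  | succ r ih =>
    rw [Finset.sum_range_succ, ih, Nat.choose_succ_succ]
    push_cast
    ring

private theorem A1_rec (x : ℝ) (N r : ℕ) :
    (1 - x) ^ (N + 1) - ∑ j ∈ range (r + 2), (-1 : ℝ) ^ j * ((N + 1).choose j : ℝ) * x ^ j =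
      ((1 - x) ^ N - ∑ j ∈ range (r + 2), (-1 : ℝ) ^ j * (N.choose j : ℝ) * x ^ j) -
        x * ((1 - x) ^ N - ∑ j ∈ range (r + 1), (-1 : ℝ) ^ j * (N.choose j : ℝ) * x ^ j) := by
  have h1 : ∑ j ∈ range (r + 2), (-1 : ℝ) ^ j * ((N + 1).choose j : ℝ) * x ^ j =
      ∑ j ∈ range (r + 2), (-1 : ℝ) ^ j * (N.choose j : ℝ) * x ^ j -
        x * ∑ j ∈ range (r + 1), (-1 : ℝ) ^ j * (N.choose j : ℝ) * x ^ j := by
    rw [Finset.sum_range_succ' _ (r + 1), Finset.sum_range_succ' (fun j => (-1 : ℝ) ^ j * (N.choose j : ℝ) * x ^ j) (r + 1),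
      Finset.mul_sum, add_sub_right_comm, ← Finset.sum_sub_distrib]
    refine congrArg₂ (· + ·) (Finset.sum_congr rfl fun j _ => ?_) ?_
    · rw [Nat.choose_succ_succ]
      push_cast
      ring
    · simp
  rw [h1]
  ring

private theorem A1_both (x : ℝ) (h0 : 0 ≤ x) (h1 : x ≤ 1) (N : ℕ) : ∀ r : ℕ,
    0 ≤ (-1 : ℝ) ^ (r + 1) * ((1 - x) ^ N - ∑ j ∈ range (r + 1), (-1 : ℝ) ^ j * (N.choose j : ℝ) * x ^ j) ∧
    (-1 : ℝ) ^ (r + 1) * ((1 - x) ^ N - ∑ j ∈ range (r + 1), (-1 : ℝ) ^ j * (N.choose j : ℝ) * x ^ j) ≤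
      (N.choose (r + 1) : ℝ) * x ^ (r + 1) := by
  induction N with
  | zero =>
    intro r
    have h2 : ∑ j ∈ range (r + 1), (-1 : ℝ) ^ j * ((0 : ℕ).choose j : ℝ) * x ^ j = 1 := by
      rw [Finset.sum_range_succ']
      simp
    rw [h2]
    simp
  | succ N ih =>
    intro r
    rcases r with _ | r
    · have h3 := ih 0
      simp only [zero_add, Finset.sum_range_one, pow_zero, pow_one, Nat.choose_zero_right, Nat.cast_one, mul_one,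
        Nat.choose_one_right] at h3 ⊢
      have h4 : 0 ≤ (1 - x) ^ N := pow_nonneg (by linarith) N
      have h5 : (1 - x) ^ N ≤ 1 := pow_le_one₀ (by linarith) (by linarith)
      have h6 : (1 - x) ^ (N + 1) = (1 - x) ^ N - x * (1 - x) ^ N := by ring
      rw [h6]
      push_cast
      constructor
      · nlinarith [mul_nonneg h0 h4]
      · nlinarith [mul_nonneg h0 (sub_nonneg.2 h5), h3.2]
    · have h3 := ih (r + 1)
      have h4 := ih r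
      rw [show r + 1 + 1 = r + 2 from rfl] at h3 ⊢
      have h5 : (-1 : ℝ) ^ (r + 2) * ((1 - x) ^ (N + 1) - ∑ j ∈ range (r + 2), (-1 : ℝ) ^ j * ((N + 1).choose j : ℝ) * x ^ j) =
          (-1 : ℝ) ^ (r + 2) * ((1 - x) ^ N - ∑ j ∈ range (r + 2), (-1 : ℝ) ^ j * (N.choose j : ℝ) * x ^ j) +
            x * ((-1 : ℝ) ^ (r + 1) * ((1 - x) ^ N - ∑ j ∈ range (r + 1), (-1 : ℝ) ^ j * (N.choose j : ℝ) * x ^ j)) := by
        rw [A1_rec]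
        ring
      rw [h5, Nat.choose_succ_succ]
      refine ⟨add_nonneg h3.1 (mul_nonneg h0 h4.1), ?_⟩
      refine (add_le_add h3.2 (mul_le_mul_of_nonneg_left h4.2 h0)).trans (le_of_eq ?_)
      push_cast
      ring

/-- PROOF.  `X = 0`: the sum is `1`.  `X = Y + 1`: `∑_{j ≤ r} (-1)^j C(Y + 1, j) = (-1)^r C(Y, r)` (induction on `r`, `Nat.choose_succ_succ`; or `Int.alternating_sum_range_choose`-type lemmas), with `r = 2 k + 1` it is `≤ 0`. -/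
theorem bon_pt (X k : ℕ) : ∑ j ∈ range (2 * k + 2), (-1 : ℝ) ^ j * (X.choose j : ℝ) ≤ if X = 0 then 1 else 0 := by
  rcases X with _ | Y
  · rw [if_pos rfl, Finset.sum_range_succ']
    simp
  · rw [if_neg (Nat.succ_ne_zero Y), show 2 * k + 2 = (2 * k + 1) + 1 from rfl, A1_alt, pow_succ, pow_mul]
    simp

/-- PROOF.  Let `R r N = (-1)^(r+1) ((1 - x)^N - S r N)`, `S r N = ∑_{j ≤ r} (-1)^j C(N, j) x^j`.  Then `R r (N + 1) = R r N + x R (r - 1) N` for `r ≥ 1` and `R 0 N = 1 - (1 - x)^N` (Pascal).  Induction on `N`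
for all `r`: `0 ≤ R r N ≤ C(N, r + 1) x^(r + 1)` (for `r = 0` directly: `1 - N x ≤ (1 - x)^N ≤ 1`, Bernoulli).  Then `|..| = |R| = R`. -/
theorem bon_tr (x : ℝ) (h0 : 0 ≤ x) (h1 : x ≤ 1) (N r : ℕ) :
    |(1 - x) ^ N - ∑ j ∈ range (r + 1), (-1 : ℝ) ^ j * (N.choose j : ℝ) * x ^ j| ≤ (N.choose (r + 1) : ℝ) * x ^ (r + 1) := by
  obtain ⟨h2, h3⟩ := A1_both x h0 h1 N r
  have h4 : |(1 - x) ^ N - ∑ j ∈ range (r + 1), (-1 : ℝ) ^ j * (N.choose j : ℝ) * x ^ j| =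
      |(-1 : ℝ) ^ (r + 1) * ((1 - x) ^ N - ∑ j ∈ range (r + 1), (-1 : ℝ) ^ j * (N.choose j : ℝ) * x ^ j)| := by
    rw [abs_mul, abs_pow, abs_neg, abs_one, one_pow, one_mul]
  rw [h4, abs_of_nonneg h2]
  exact h3

/-- PROOF.  `bon_tr` with `x = 1 / q`, `r = 2 k + 1`: the sum is at least `(1 - 1/q)^N - C(N, 2k+2) q^(-(2k+2))`; `(1 - 1/q)^N ≥ ((1 - 1/q)^q)^C ≥ 4^(-C)` (`(1 - 1/q)^q ≥ 1/4` for `q ≥ 2`:
`(1 - 1/q)^(q) = (1 + 1/(q-1))^(-q)`, or `1 - 1/q ≥ 4^(-1/q)` by convexity: `one_add_mul_self_le_pow`-like, `4^(1/q) ≥ q/(q-1)`; or `(1 - 1/q)^q ≥ (1 - 1/q)^2 (..)`, any proof) and `C(N, j) q^(-j) ≤ N^j / (j! q^j) ≤ C^j / j!` (`Nat.choose_le_pow_div`), which tends to `0`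
(`FloorSemiring.tendsto_pow_div_factorial_atTop`): choose `k` with `C^(2k+2) / (2k+2)! ≤ 4^(-C) / 2`, `κ = 4^(-C) / 2`. -/
theorem bon_lb (C : ℕ) : ∃ (k : ℕ) (κ : ℝ), 0 < κ ∧ κ ≤ 1 ∧ ∀ q N : ℕ, 2 ≤ q → N ≤ C * q →
    κ ≤ ∑ j ∈ range (2 * k + 2), (-1 : ℝ) ^ j * (N.choose j : ℝ) * ((q : ℝ)⁻¹) ^ j := by
  have hκ : (0 : ℝ) < (1 / 4) ^ C / 2 := by positivity
  have ht := FloorSemiring.tendsto_pow_div_factorial_atTop (C : ℝ)
  obtain ⟨n₀, hn₀⟩ := Filter.eventually_atTop.1 (ht.eventually (gt_mem_nhds hκ))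
  refine ⟨n₀, (1 / 4) ^ C / 2, hκ, ?_, fun q N hq hN => ?_⟩
  · have h1 : ((1 : ℝ) / 4) ^ C ≤ 1 := pow_le_one₀ (by norm_num) (by norm_num)
    linarith
  · have hq0 : (0 : ℝ) < q := by
      have : 0 < q := by omega
      exact_mod_cast this
    have hq2 : (2 : ℝ) ≤ q := by exact_mod_cast hq
    have hx0 : (0 : ℝ) ≤ (q : ℝ)⁻¹ := inv_nonneg.2 hq0.le
    have hx1 : (q : ℝ)⁻¹ ≤ 1 := inv_le_one_of_one_le₀ (by linarith)
    have h1 := bon_tr (q : ℝ)⁻¹ hx0 hx1 N (2 * n₀ + 1)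
    have h2 := (abs_le.1 h1).2
    rw [show 2 * n₀ + 1 + 1 = 2 * n₀ + 2 from rfl] at h2
    have h3 : (N.choose (2 * n₀ + 2) : ℝ) * ((q : ℝ)⁻¹) ^ (2 * n₀ + 2) ≤ (C : ℝ) ^ (2 * n₀ + 2) / ((2 * n₀ + 2).factorial : ℝ) := by
      have h4 : (N.choose (2 * n₀ + 2) : ℝ) ≤ (N : ℝ) ^ (2 * n₀ + 2) / ((2 * n₀ + 2).factorial : ℝ) :=
        Nat.choose_le_pow_div (α := ℝ) (2 * n₀ + 2) N
      have h5 : (N : ℝ) * (q : ℝ)⁻¹ ≤ C := by
        rw [← div_eq_mul_inv, div_le_iff₀ hq0]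
        exact_mod_cast hN
      calc (N.choose (2 * n₀ + 2) : ℝ) * ((q : ℝ)⁻¹) ^ (2 * n₀ + 2)
          ≤ (N : ℝ) ^ (2 * n₀ + 2) / ((2 * n₀ + 2).factorial : ℝ) * ((q : ℝ)⁻¹) ^ (2 * n₀ + 2) :=
            mul_le_mul_of_nonneg_right h4 (pow_nonneg hx0 _)
        _ = ((N : ℝ) * (q : ℝ)⁻¹) ^ (2 * n₀ + 2) / ((2 * n₀ + 2).factorial : ℝ) := by
            rw [mul_pow]
            ring
        _ ≤ (C : ℝ) ^ (2 * n₀ + 2) / ((2 * n₀ + 2).factorial : ℝ) := by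
            refine div_le_div_of_nonneg_right ?_ (Nat.cast_nonneg _)
            exact pow_le_pow_left₀ (mul_nonneg (Nat.cast_nonneg _) hx0) h5 _
    have h6 := hn₀ (2 * n₀ + 2) (by omega)
    have h7 : ((1 : ℝ) / 4) ^ C ≤ (1 - (q : ℝ)⁻¹) ^ N := by
      have h8 : (1 : ℝ) / 4 ≤ (1 - (q : ℝ)⁻¹) ^ q := by
        have h9 := one_add_mul_self_le_rpow_one_add (s := -(q : ℝ)⁻¹) (by linarith) (p := (q : ℝ) / 2) (by linarith)
        have h10 : 1 + (q : ℝ) / 2 * (-(q : ℝ)⁻¹) = 1 / 2 := by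
          field_simp
          norm_num
        rw [h10] at h9
        have h11 : (0 : ℝ) ≤ 1 + -(q : ℝ)⁻¹ := by linarith
        have h12 : (1 - (q : ℝ)⁻¹) ^ q = ((1 + -(q : ℝ)⁻¹) ^ ((q : ℝ) / 2)) ^ 2 := by
          rw [← Real.rpow_natCast, ← Real.rpow_natCast, ← Real.rpow_mul h11, sub_eq_add_neg]
          have h13 : (q : ℝ) / 2 * ((2 : ℕ) : ℝ) = q := by
            push_cast
            ring
          rw [h13]
        rw [h12]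
        have h14 : ((1 : ℝ) / 2) ^ 2 ≤ ((1 + -(q : ℝ)⁻¹) ^ ((q : ℝ) / 2)) ^ 2 := pow_le_pow_left₀ (by norm_num) h9 2
        have h15 : ((1 : ℝ) / 2) ^ 2 = 1 / 4 := by norm_num
        linarith
      have h16 : (0 : ℝ) ≤ 1 - (q : ℝ)⁻¹ := by linarith
      calc ((1 : ℝ) / 4) ^ C ≤ ((1 - (q : ℝ)⁻¹) ^ q) ^ C := pow_le_pow_left₀ (by norm_num) h8 C
        _ = (1 - (q : ℝ)⁻¹) ^ (C * q) := by rw [← pow_mul, mul_comm]
        _ ≤ (1 - (q : ℝ)⁻¹) ^ N := pow_le_pow_of_le_one h16 (by linarith) hN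
    linarith

end FB
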