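import Pool.Agent.Lib.MP_17a322_ntFY.A1
import Pool.Agent.Lib.MP_17a322_ntFB.PF1

/-!
# LEAF A3: few zeros, many functionals (any finitely many of them independent)
-/

namespace FB

open Finset

/-- PROOF.  `card_surjA` (PF1) for the homomorphism `v ↦ (L t v)_{t ∈ T}` to `T → F` and the set `{0}`; `Nat.card (T → F) = Nat.card F ^ T.card`. -/
theorem mom {V F Z : Type} [AddCommGroup V] [Finite V] [AddCommGroup F] [Finite F] (L : Z → V →+ F) (T : Finset Z)
    (h : Function.Surjective fun (v : V) (t : T) => L t v) :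
    Nat.card {v : V // ∀ t ∈ T, L t v = 0} * Nat.card F ^ T.card = Nat.card V := by
  have h1 := card_surjA (AddMonoidHom.pi fun t : T => L t) h {0}
  have h2 : Nat.card {v : V // (AddMonoidHom.pi fun t : T => L t) v ∈ ({0} : Set (T → F))} =
      Nat.card {v : V // ∀ t ∈ T, L t v = 0} := by
    refine Nat.card_congr (Equiv.subtypeEquivRight fun v => ?_)
    rw [Set.mem_singleton_iff, funext_iff]
    exact ⟨fun h t ht => h ⟨t, ht⟩, fun h t => h t t.2⟩
  have h3 : Nat.card (T → F) = Nat.card F ^ T.card := by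
    rw [Nat.card_fun, Nat.card_eq_fintype_card (α := T), Fintype.card_coe]
  have h4 : Nat.card ({0} : Set (T → F)) = 1 := Nat.card_unique
  rw [h2, h3, h4, one_mul] at h1
  exact h1

/-- PROOF.  `k`, `κ` of `bon_lb C`, `r = 2 k + 1`.  For `v : V` let `X v` be the number of the `z` with `L z v = 0`.  `∑_v (if X v = 0 then 1 else 0) ≥ ∑_v ∑_j (-1)^j C(X v, j)` (`bon_pt`), and
`∑_v C(X v, j) = ∑_{T : Finset Z, #T = j} #{v | L t v = 0 for t ∈ T} = C(#Z, j) #V / q^j` (`Finset.card_powersetCard`, double counting `Finset.sum_comm`, `mom`).  Then `bon_lb` for `q = #F`, `N = #Z`. -/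
theorem one_form (C : ℕ) : ∃ (r : ℕ) (κ : ℝ), 0 < κ ∧ κ ≤ 1 ∧ ∀ (V F Z : Type) [AddCommGroup V] [Finite V]
    [AddCommGroup F] [Finite F] [Finite Z] (L : Z → V →+ F), 2 ≤ Nat.card F → Nat.card Z ≤ C * Nat.card F →
    (∀ T : Finset Z, T.card ≤ r → Function.Surjective fun (v : V) (t : T) => L t v) →
    κ * Nat.card V ≤ Nat.card {v : V // ∀ z, L z v ≠ 0} := by
  obtain ⟨k, κ, hκ, hκ1, hb⟩ := bon_lb C
  refine ⟨2 * k + 1, κ, hκ, hκ1, ?_⟩
  intro V F Z _ _ _ _ _ L hF hZ hs
  classical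
  have := Fintype.ofFinite V
  have := Fintype.ofFinite F
  have := Fintype.ofFinite Z
  have hq0 : (Nat.card F : ℝ) ≠ 0 := by
    have h0 : 0 < Nat.card F := lt_of_lt_of_le Nat.zero_lt_two hF
    exact_mod_cast h0.ne'
  have hch : ∀ (v : V) (j : ℕ), (((univ.filter fun z => L z v = 0).card.choose j : ℕ) : ℝ) =
      ∑ T ∈ powersetCard j (univ : Finset Z), if ∀ t ∈ T, L t v = 0 then (1 : ℝ) else 0 := by
    intro v j
    rw [← Finset.card_powersetCard, ← Finset.sum_filter, Finset.sum_const, nsmul_eq_mul, mul_one]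
    refine congrArg (fun s : Finset (Finset Z) => (s.card : ℝ)) ?_
    ext T
    rw [Finset.mem_powersetCard, Finset.mem_filter, Finset.mem_powersetCard]
    constructor
    · rintro ⟨hT, hj⟩
      exact ⟨⟨Finset.subset_univ _, hj⟩, fun t ht => (Finset.mem_filter.1 (hT ht)).2⟩
    · rintro ⟨⟨_, hj⟩, hT⟩
      exact ⟨fun t ht => Finset.mem_filter.2 ⟨Finset.mem_univ _, hT t ht⟩, hj⟩
  have hmo : ∀ j ∈ range (2 * k + 2), ∑ v : V, (((univ.filter fun z => L z v = 0).card.choose j : ℕ) : ℝ) =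
      (Nat.card V : ℝ) * (((Nat.card Z).choose j : ℝ) * ((Nat.card F : ℝ)⁻¹) ^ j) := by
    intro j hj
    rw [Finset.sum_congr rfl fun v _ => hch v j, Finset.sum_comm]
    have h1 : ∀ T ∈ powersetCard j (univ : Finset Z), ∑ v : V, (if ∀ t ∈ T, L t v = 0 then (1 : ℝ) else 0) =
        (Nat.card V : ℝ) * ((Nat.card F : ℝ)⁻¹) ^ j := by
      intro T hT
      obtain ⟨_, hTj⟩ := Finset.mem_powersetCard.1 hT
      have h2 := mom L T (hs T (by rw [hTj]; exact Nat.lt_succ_iff.1 (Finset.mem_range.1 hj)))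
      rw [hTj] at h2
      have h3 : ∑ v : V, (if ∀ t ∈ T, L t v = 0 then (1 : ℝ) else 0) =
          (Nat.card {v : V // ∀ t ∈ T, L t v = 0} : ℝ) := by
        rw [Finset.sum_boole, Nat.card_eq_fintype_card, Fintype.card_subtype]
      rw [h3, ← h2]
      push_cast
      rw [inv_pow, mul_assoc, mul_inv_cancel₀ (pow_ne_zero j hq0), mul_one]
    rw [Finset.sum_congr rfl h1, Finset.sum_const, Finset.card_powersetCard, Finset.card_univ,
      ← Nat.card_eq_fintype_card, nsmul_eq_mul]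
    ring
  have hle : ∑ v : V, ∑ j ∈ range (2 * k + 2), (-1 : ℝ) ^ j *
      (((univ.filter fun z => L z v = 0).card.choose j : ℕ) : ℝ) ≤
      ∑ v : V, if (univ.filter fun z => L z v = 0).card = 0 then (1 : ℝ) else 0 :=
    Finset.sum_le_sum fun v _ => bon_pt _ k
  have hr : (∑ v : V, if (univ.filter fun z => L z v = 0).card = 0 then (1 : ℝ) else 0) =
      (Nat.card {v : V // ∀ z, L z v ≠ 0} : ℝ) := by
    rw [Finset.sum_boole, Nat.card_eq_fintype_card, Fintype.card_subtype]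
    refine congrArg (fun s : Finset V => (s.card : ℝ)) ?_
    ext v
    rw [Finset.mem_filter, Finset.mem_filter, Finset.card_eq_zero, Finset.filter_eq_empty_iff]
    exact ⟨fun h => ⟨h.1, fun z => h.2 (Finset.mem_univ z)⟩, fun h => ⟨h.1, fun z _ => h.2 z⟩⟩
  rw [hr, Finset.sum_comm] at hle
  refine le_trans ?_ hle
  have h5 : ∑ j ∈ range (2 * k + 2), ∑ v : V, (-1 : ℝ) ^ j *
      (((univ.filter fun z => L z v = 0).card.choose j : ℕ) : ℝ) =
      (∑ j ∈ range (2 * k + 2), (-1 : ℝ) ^ j * ((Nat.card Z).choose j : ℝ) * ((Nat.card F : ℝ)⁻¹) ^ j) *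
        (Nat.card V : ℝ) := by
    rw [Finset.sum_mul]
    refine Finset.sum_congr rfl fun j hj => ?_
    rw [← Finset.mul_sum, hmo j hj]
    ring
  rw [h5]
  exact mul_le_mul_of_nonneg_right (hb _ _ hF hZ) (Nat.cast_nonneg _)

end FB
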