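import Pool.Agent.Lib.MP_17a322_ntFY.A3

/-!
# LEAF A4: two groups of conditions; conditions on finitely many values
-/

namespace FB

open Finset

/-- PROOF.  `r`, `κ₁` of `one_form (2 * C)`, `κ = κ₁ / 2`.  For `v' : V'` let `Z(v') = {z | K z v' = 0}`.  `∑_{v'} #Z(v') = ∑_z #{v' | K z v' = 0} = #Z #V' / #W ≤ C #F #V'` (`card_surjA` with the set `{0}`).  So at least
half of the `v'` have `#Z(v') ≤ 2 C #F` (Markov), and for these `one_form` for `Z(v')` (the restriction of `L`; a finite subset of `Z(v')` of at most `r` elements is one of `Z`) gives at least `κ₁ #V` elements `v` with `L z v ≠ 0` for all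
`z ∈ Z(v')`.  So at least `κ₁ / 2 #V' #V` pairs are not in the set; the complement (`Nat.card` of a subtype and of its complement) has at most `(1 - κ) #V' #V` elements. -/
theorem two_forms (C : ℕ) : ∃ (r : ℕ) (κ : ℝ), 0 < κ ∧ κ ≤ 1 ∧ ∀ (V' V F W Z : Type) [AddCommGroup V'] [Finite V']
    [AddCommGroup V] [Finite V] [AddCommGroup F] [Finite F] [AddCommGroup W] [Finite W] [Finite Z] (K : Z → V' →+ W)
    (L : Z → V →+ F), 2 ≤ Nat.card F → (∀ z, Function.Surjective (K z)) → Nat.card Z ≤ C * (Nat.card F * Nat.card W) →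
    (∀ T : Finset Z, T.card ≤ r → Function.Surjective fun (v : V) (t : T) => L t v) →
    (Nat.card {v : V' × V // ∃ z, K z v.1 = 0 ∧ L z v.2 = 0} : ℝ) ≤ (1 - κ) * (Nat.card V' * Nat.card V) := by
  classical
  obtain ⟨r, κ₁, hκ, hκ1, h1⟩ := one_form (2 * C)
  refine ⟨r, κ₁ / 2, by positivity, by linarith, ?_⟩
  intro V' V F W Z _ _ _ _ _ _ _ _ _ K L hF hK hZ hL
  have := Fintype.ofFinite V'
  have := Fintype.ofFinite V
  have := Fintype.ofFinite F
  have := Fintype.ofFinite W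
  have := Fintype.ofFinite Z
  have hav : ∑ v' : V', Nat.card {z : Z // K z v' = 0} ≤ C * Nat.card F * Nat.card V' := by
    have e1 : ∑ v' : V', Nat.card {z : Z // K z v' = 0} = ∑ z : Z, Nat.card {v' : V' // K z v' = 0} := by
      rw [← Nat.card_sigma, ← Nat.card_sigma]
      exact Nat.card_congr
        { toFun := fun x => ⟨x.2.1, x.1, x.2.2⟩, invFun := fun x => ⟨x.2.1, x.1, x.2.2⟩,
          left_inv := fun _ => rfl, right_inv := fun _ => rfl }
    have e2 : ∀ z : Z, Nat.card {v' : V' // K z v' = 0} * Nat.card W = Nat.card V' := by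
      intro z
      have h := card_surjA (K z) (hK z) {0}
      have h' : Nat.card (({0} : Set W) : Type) = 1 := Nat.card_unique
      rw [h', one_mul] at h
      exact h
    have hW : 0 < Nat.card W := Nat.card_pos
    refine Nat.le_of_mul_le_mul_right ?_ hW
    rw [e1, Finset.sum_mul, Finset.sum_congr rfl fun z _ => e2 z, Finset.sum_const, Finset.card_univ,
      ← Nat.card_eq_fintype_card, smul_eq_mul]
    calc Nat.card Z * Nat.card V' ≤ (C * (Nat.card F * Nat.card W)) * Nat.card V' := Nat.mul_le_mul_right _ hZ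
      _ = _ := by ring
  have hsplit : Nat.card {v' : V' // Nat.card {z : Z // K z v' = 0} ≤ 2 * C * Nat.card F} +
      Nat.card {v' : V' // ¬ Nat.card {z : Z // K z v' = 0} ≤ 2 * C * Nat.card F} = Nat.card V' := by
    rw [← Nat.card_sum]
    exact Nat.card_congr (Equiv.sumCompl _)
  have hbad : 2 * Nat.card {v' : V' // ¬ Nat.card {z : Z // K z v' = 0} ≤ 2 * C * Nat.card F} ≤ Nat.card V' := by
    have h2 : Nat.card {v' : V' // ¬ Nat.card {z : Z // K z v' = 0} ≤ 2 * C * Nat.card F} * (2 * C * Nat.card F + 1) ≤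
        C * Nat.card F * Nat.card V' := by
      refine le_trans ?_ hav
      rw [Nat.card_eq_fintype_card, Fintype.card_subtype, ← smul_eq_mul, ← Finset.sum_const]
      refine le_trans (Finset.sum_le_sum fun v' hv' => ?_) (Finset.sum_le_sum_of_subset (Finset.filter_subset _ _))
      have h3 := (Finset.mem_filter.1 hv').2
      omega
    rcases Nat.eq_zero_or_pos (C * Nat.card F) with h0 | h0
    · rw [mul_assoc, h0, mul_zero, zero_add, mul_one, zero_mul] at h2
      have h4 : Nat.card {v' : V' // ¬ Nat.card {z : Z // K z v' = 0} ≤ 2 * C * Nat.card F} = 0 := by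
        rw [mul_assoc, h0]
        exact Nat.le_zero.1 h2
      rw [h4]
      exact Nat.zero_le _
    · refine Nat.le_of_mul_le_mul_left ?_ h0
      nlinarith
  have hgood : (Nat.card V' : ℝ) ≤ 2 * Nat.card {v' : V' // Nat.card {z : Z // K z v' = 0} ≤ 2 * C * Nat.card F} := by
    have h5 : Nat.card V' ≤ 2 * Nat.card {v' : V' // Nat.card {z : Z // K z v' = 0} ≤ 2 * C * Nat.card F} := by omega
    exact_mod_cast h5
  have hone : ∀ v' : V', Nat.card {z : Z // K z v' = 0} ≤ 2 * C * Nat.card F →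
      κ₁ * Nat.card V ≤ Nat.card {v : V // ∀ z : {z : Z // K z v' = 0}, L z v ≠ 0} := by
    intro v' hv'
    refine h1 V F {z : Z // K z v' = 0} (fun z => L z) hF hv' fun T hT => ?_
    intro f
    have h6 := hL (T.map (Function.Embedding.subtype _)) (by rw [Finset.card_map]; exact hT)
    obtain ⟨v, hv⟩ := h6 (fun t => if h : ∃ x : T, (x.1 : Z) = t then f h.choose else 0)
    refine ⟨v, funext fun t => ?_⟩
    have h7 := congrFun hv ⟨t.1.1, Finset.mem_map.2 ⟨t.1, t.2, rfl⟩⟩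
    have h8 : ∃ x : T, (x.1 : Z) = t.1.1 := ⟨t, rfl⟩
    rw [dif_pos h8] at h7
    refine Eq.trans h7 ?_
    exact congrArg f (Subtype.ext (Subtype.ext h8.choose_spec))
  have hcomp : Nat.card {v : V' × V // ∃ z, K z v.1 = 0 ∧ L z v.2 = 0} +
      Nat.card {v : V' × V // ¬ ∃ z, K z v.1 = 0 ∧ L z v.2 = 0} = Nat.card V' * Nat.card V := by
    rw [← Nat.card_sum, ← Nat.card_prod]
    exact Nat.card_congr (Equiv.sumCompl _)
  have hlow : κ₁ * Nat.card V * Nat.card {v' : V' // Nat.card {z : Z // K z v' = 0} ≤ 2 * C * Nat.card F} ≤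
      Nat.card {v : V' × V // ¬ ∃ z, K z v.1 = 0 ∧ L z v.2 = 0} := by
    have h9 : Nat.card (Σ v' : {v' : V' // Nat.card {z : Z // K z v' = 0} ≤ 2 * C * Nat.card F},
        {v : V // ∀ z : {z : Z // K z v'.1 = 0}, L z v ≠ 0}) ≤
        Nat.card {v : V' × V // ¬ ∃ z, K z v.1 = 0 ∧ L z v.2 = 0} := by
      refine Nat.card_le_card_of_injective (fun x => ⟨(x.1.1, x.2.1), ?_⟩) ?_
      · rintro ⟨z, hz1, hz2⟩
        exact x.2.2 ⟨z, hz1⟩ hz2
      · rintro ⟨⟨a, ha⟩, ⟨b, hb⟩⟩ ⟨⟨a', ha'⟩, ⟨b', hb'⟩⟩ hab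
        have h10 := congrArg Subtype.val hab
        have h11 : a = a' := congrArg Prod.fst h10
        have h12 : b = b' := congrArg Prod.snd h10
        subst h11
        subst h12
        rfl
    refine le_trans ?_ (Nat.cast_le.2 h9)
    rw [Nat.card_sigma, Nat.cast_sum]
    refine le_trans ?_ (Finset.sum_le_sum fun v' _ => hone v'.1 v'.2)
    rw [Finset.sum_const, Finset.card_univ, ← Nat.card_eq_fintype_card, nsmul_eq_mul, mul_comm]
  have hcomp' : (Nat.card {v : V' × V // ∃ z, K z v.1 = 0 ∧ L z v.2 = 0} : ℝ) +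
      Nat.card {v : V' × V // ¬ ∃ z, K z v.1 = 0 ∧ L z v.2 = 0} = Nat.card V' * Nat.card V := by
    exact_mod_cast hcomp
  have hV : (0 : ℝ) ≤ Nat.card V := Nat.cast_nonneg _
  have h13 : κ₁ * Nat.card V * Nat.card V' ≤ κ₁ * Nat.card V *
      (2 * Nat.card {v' : V' // Nat.card {z : Z // K z v' = 0} ≤ 2 * C * Nat.card F}) :=
    mul_le_mul_of_nonneg_left hgood (mul_nonneg hκ.le hV)
  nlinarith

/-- PROOF.  The complement is the preimage of `∏_z (S z)ᶜ` under the surjective homomorphism `v ↦ (L z v)_z` to `Z → F`: `card_surjA`, `#∏_z (S z)ᶜ = ∏_z #(S z)ᶜ ≥ (#F / 4)^(#Z)` and `(1/4)^(#Z) ≥ (1/4)^C`. -/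
theorem all_res (C : ℕ) {V F Z : Type} [AddCommGroup V] [Finite V] [AddCommGroup F] [Finite F] [Finite Z]
    (L : Z → V →+ F) (hL : Function.Surjective fun (v : V) (z : Z) => L z v) (S : Z → Set F)
    (hS : ∀ z, (Nat.card F : ℝ) ≤ 4 * Nat.card ((S z)ᶜ : Set F)) (hZ : Nat.card Z ≤ C) :
    (Nat.card {v : V // ∃ z, L z v ∈ S z} : ℝ) ≤ (1 - (1 / 4) ^ C) * Nat.card V := by
  classical
  have := Fintype.ofFinite Z
  have hcomp : Nat.card {v : V // ∃ z, L z v ∈ S z} + Nat.card {v : V // ¬ ∃ z, L z v ∈ S z} = Nat.card V := by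
    rw [← Nat.card_sum]
    exact Nat.card_congr (Equiv.sumCompl _)
  have hcomp' : (Nat.card {v : V // ∃ z, L z v ∈ S z} : ℝ) + Nat.card {v : V // ¬ ∃ z, L z v ∈ S z} = Nat.card V := by
    exact_mod_cast hcomp
  have h1 := card_surjA (AddMonoidHom.pi fun z : Z => L z) hL {f | ∀ z, f z ∈ (S z)ᶜ}
  have h2 : Nat.card {v : V // (AddMonoidHom.pi fun z : Z => L z) v ∈ {f : Z → F | ∀ z, f z ∈ (S z)ᶜ}} =
      Nat.card {v : V // ¬ ∃ z, L z v ∈ S z} := by
    refine Nat.card_congr (Equiv.subtypeEquivRight fun v => ?_)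
    rw [not_exists]
    exact Iff.rfl
  have h3 : Nat.card {f : Z → F | ∀ z, f z ∈ (S z)ᶜ} = ∏ z, Nat.card ((S z)ᶜ : Set F) := by
    rw [← Nat.card_pi]
    exact Nat.card_congr
      { toFun := fun f z => ⟨f.1 z, f.2 z⟩, invFun := fun f => ⟨fun z => (f z).1, fun z => (f z).2⟩,
        left_inv := fun _ => rfl, right_inv := fun _ => rfl }
  have h4 : Nat.card (Z → F) = Nat.card F ^ Nat.card Z := by
    rw [Nat.card_pi, Finset.prod_const, Finset.card_univ, ← Nat.card_eq_fintype_card]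
  rw [h2, h3, h4] at h1
  have hF : (0 : ℝ) < Nat.card F := by exact_mod_cast (Nat.card_pos (α := F))
  have h5 : (Nat.card F : ℝ) ^ Nat.card Z * (1 / 4) ^ Nat.card Z ≤ ∏ z, (Nat.card ((S z)ᶜ : Set F) : ℝ) := by
    rw [← mul_pow]
    have h6 : ((Nat.card F : ℝ) * (1 / 4)) ^ Nat.card Z = ∏ _z : Z, ((Nat.card F : ℝ) * (1 / 4)) := by
      rw [Finset.prod_const, Finset.card_univ, ← Nat.card_eq_fintype_card]
    rw [h6]
    refine Finset.prod_le_prod (fun z _ => by positivity) fun z _ => ?_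
    have := hS z
    linarith
  have h7 : ((Nat.card {v : V // ¬ ∃ z, L z v ∈ S z} : ℝ)) * (Nat.card F : ℝ) ^ Nat.card Z =
      (∏ z, (Nat.card ((S z)ᶜ : Set F) : ℝ)) * Nat.card V := by
    exact_mod_cast h1
  have hV : (0 : ℝ) ≤ Nat.card V := Nat.cast_nonneg _
  have h8 : ((1 : ℝ) / 4) ^ C ≤ (1 / 4) ^ Nat.card Z := pow_le_pow_of_le_one (by norm_num) (by norm_num) hZ
  have h9 : (1 / 4) ^ Nat.card Z * (Nat.card V : ℝ) ≤ Nat.card {v : V // ¬ ∃ z, L z v ∈ S z} := by
    have hFp : (0 : ℝ) < (Nat.card F : ℝ) ^ Nat.card Z := by positivity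
    refine le_of_mul_le_mul_right ?_ hFp
    rw [h7]
    calc (1 / 4) ^ Nat.card Z * (Nat.card V : ℝ) * (Nat.card F : ℝ) ^ Nat.card Z =
        ((Nat.card F : ℝ) ^ Nat.card Z * (1 / 4) ^ Nat.card Z) * Nat.card V := by ring
      _ ≤ _ := mul_le_mul_of_nonneg_right h5 hV
  have h10 : (1 / 4 : ℝ) ^ C * Nat.card V ≤ (1 / 4) ^ Nat.card Z * Nat.card V := mul_le_mul_of_nonneg_right h8 hV
  linarith

end FB
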