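import Pool.Agent.Lib.MP_17a322_ntFB.Stmt

/-!
# LEAF A6: forms with given values at given points
-/

namespace FB

open Finset

private noncomputable def A6_phi {M n : ℕ} (γ : MWS.Mo M n) : Fin (M + 1) →₀ ℕ :=
  Finsupp.equivFunOnFinite.symm fun i => (γ.1 i : ℕ)

private theorem A6_phi_apply {M n : ℕ} (γ : MWS.Mo M n) (i : Fin (M + 1)) :
    A6_phi γ i = (γ.1 i : ℕ) := rfl

private theorem A6_phi_inj {M n : ℕ} : Function.Injective (A6_phi : MWS.Mo M n → _) := by
  intro γ δ h
  refine Subtype.ext (funext fun i => Fin.ext ?_)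
  exact DFunLike.congr_fun h i

/-- A product of linear forms is a form.  PROOF.  Induction on `n` (`Fin.prod_univ_succ`): the product of the form with the coefficients `a` and of the linear form with the coefficients `l` has the coefficients
`a' γ' = ∑_{c, γ : γ + e_c = γ'} l c a γ`; or with `MvPolynomial`: the product of the linear forms is homogeneous of degree `n` (`MvPolynomial.IsHomogeneous.prod`), take its coefficients. -/
theorem prod_lin {F : Type} [Field F] {M n : ℕ} (ell : Fin n → Fin (M + 1) → F) :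
    ∃ a : MWS.Mo M n → F, ∀ x : Fin (M + 1) → F, ∑ γ, a γ * MWS.mo x γ = ∏ i, ∑ c, ell i c * x c := by
  classical
  obtain ⟨P, hP⟩ : ∃ P : MvPolynomial (Fin (M + 1)) F,
      P = ∏ i, ∑ c, MvPolynomial.C (ell i c) * MvPolynomial.X c := ⟨_, rfl⟩
  have hhom : P.IsHomogeneous n := by
    have h1 : (∏ i : Fin n, ∑ c, MvPolynomial.C (ell i c) * MvPolynomial.X c :
        MvPolynomial (Fin (M + 1)) F).IsHomogeneous (∑ _i : Fin n, 1) := by
      refine MvPolynomial.IsHomogeneous.prod _ _ _ fun i _ => ?_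
      refine MvPolynomial.IsHomogeneous.sum _ _ _ fun c _ => ?_
      exact MvPolynomial.isHomogeneous_C_mul_X _ _
    rw [hP]
    simpa using h1
  refine ⟨fun γ => P.coeff (A6_phi γ), fun x => ?_⟩
  have h1 : MvPolynomial.eval x P = ∏ i, ∑ c, ell i c * x c := by
    rw [hP, map_prod]
    refine prod_congr rfl fun i _ => ?_
    rw [map_sum]
    refine sum_congr rfl fun c _ => ?_
    rw [map_mul, MvPolynomial.eval_C, MvPolynomial.eval_X]
  rw [← h1, MvPolynomial.eval_eq']
  have h2 : ∑ γ : MWS.Mo M n, P.coeff (A6_phi γ) * MWS.mo x γ =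
      ∑ d ∈ (univ : Finset (MWS.Mo M n)).image A6_phi, P.coeff d * ∏ i, x i ^ d i := by
    rw [sum_image fun γ _ δ _ h => A6_phi_inj h]
    rfl
  rw [h2]
  symm
  refine sum_subset (fun d hd => ?_) fun d _ hd => ?_
  · rw [MvPolynomial.mem_support_iff] at hd
    have h3 : d.degree = n := by
      by_contra h
      exact hd (hhom.coeff_eq_zero h)
    have h4 : ∑ i, d i = n := by
      rw [← h3, Finsupp.degree_eq_sum]
    have h5 : ∀ i, d i < n + 1 := fun i => Nat.lt_succ_of_le (by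
      rw [← h4]
      exact single_le_sum (f := fun i => d i) (fun _ _ => Nat.zero_le _) (mem_univ i))
    exact mem_image.2 ⟨⟨fun i => ⟨d i, h5 i⟩, h4⟩, mem_univ _, Finsupp.ext fun i => rfl⟩
  · rw [MvPolynomial.notMem_support_iff.1 hd, zero_mul]

private theorem A6_lin {F : Type} [Field F] {M : ℕ} {x x' : Fin (M + 1) → F} (hx' : x' ≠ 0)
    (h : ∀ l : F, x ≠ l • x') :
    ∃ l : Fin (M + 1) → F, ∑ c, l c * x' c = 0 ∧ ∑ c, l c * x c ≠ 0 := by
  classical
  have hv : ∀ (i j : Fin (M + 1)) (u : Fin (M + 1) → F),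
      ∑ c, ((Pi.single i (x' j) : Fin (M + 1) → F) c - (Pi.single j (x' i) : Fin (M + 1) → F) c) *
        u c = x' j * u i - x' i * u j := by
    intro i j u
    have h1 : ∀ (a : Fin (M + 1)) (b : F), ∑ c, (Pi.single a b : Fin (M + 1) → F) c * u c = b * u a := by
      intro a b
      rw [sum_eq_single a]
      · rw [Pi.single_eq_same]
      · intro c _ hc
        rw [Pi.single_eq_of_ne hc, zero_mul]
      · intro h
        exact absurd (mem_univ a) h
    simp only [sub_mul, sum_sub_distrib, h1]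
  by_contra hcon
  push Not at hcon
  obtain ⟨j, hj⟩ : ∃ j, x' j ≠ 0 := by
    by_contra h0
    push Not at h0
    exact hx' (funext h0)
  refine h (x j / x' j) (funext fun i => ?_)
  have h1 := hcon (fun c => (Pi.single i (x' j) : Fin (M + 1) → F) c -
    (Pi.single j (x' i) : Fin (M + 1) → F) c) (by rw [hv]; ring)
  rw [hv, sub_eq_zero] at h1
  rw [Pi.smul_apply, smul_eq_mul, div_mul_eq_mul_div, eq_div_iff hj, mul_comm, h1, mul_comm]

private theorem A6_one {F : Type} [Field F] {M n : ℕ} (T : Finset (Fin (M + 1) → F))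
    (h0 : ∀ x ∈ T, x ≠ 0) (hT : ∀ x ∈ T, ∀ y ∈ T, ∀ l : F, y = l • x → y = x)
    (hn : T.card ≤ n + 1) (x : T) :
    ∃ a : MWS.Mo M n → F, ∑ γ, a γ * MWS.mo x.1 γ ≠ 0 ∧
      ∀ x' : T, x' ≠ x → ∑ γ, a γ * MWS.mo x'.1 γ = 0 := by
  classical
  have h1 : ∀ x' : {x' : T // x' ≠ x}, ∃ l : Fin (M + 1) → F, ∑ c, l c * x'.1.1 c = 0 ∧
      ∑ c, l c * x.1 c ≠ 0 := by
    intro x'
    refine A6_lin (h0 _ x'.1.2) fun l hl => x'.2 ?_
    exact (Subtype.ext (hT _ x'.1.2 _ x.2 l hl)).symm
  choose L hL0 hL1 using h1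
  have h2 : ∃ l : Fin (M + 1) → F, ∑ c, l c * x.1 c ≠ 0 := by
    obtain ⟨j, hj⟩ : ∃ j, x.1 j ≠ 0 := by
      by_contra h
      push Not at h
      exact h0 _ x.2 (funext h)
    refine ⟨Pi.single j 1, ?_⟩
    rw [sum_eq_single j]
    · rw [Pi.single_eq_same, one_mul]
      exact hj
    · intro c _ hc
      rw [Pi.single_eq_of_ne hc, zero_mul]
    · intro h
      exact absurd (mem_univ j) h
  obtain ⟨l₀, hl₀⟩ := h2
  have hcard : Fintype.card {x' : T // x' ≠ x} ≤ Fintype.card (Fin n) := by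
    rw [Fintype.card_subtype_compl, Fintype.card_subtype_eq, Fintype.card_coe, Fintype.card_fin]
    omega
  obtain ⟨j⟩ := Function.Embedding.nonempty_of_card_le hcard
  obtain ⟨ell, hell⟩ : ∃ ell : Fin n → Fin (M + 1) → F, ell = fun i =>
    if h : ∃ x', j x' = i then L h.choose else l₀ := ⟨_, rfl⟩
  have he1 : ∀ i, ∑ c, ell i c * x.1 c ≠ 0 := by
    intro i
    rw [hell]
    by_cases h : ∃ x', j x' = i
    · simp only [dif_pos h]
      exact hL1 _
    · simp only [dif_neg h]
      exact hl₀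
  have he2 : ∀ x', ell (j x') = L x' := by
    intro x'
    have h : ∃ y, j y = j x' := ⟨x', rfl⟩
    rw [hell]
    simp only [dif_pos h]
    rw [j.injective h.choose_spec]
  obtain ⟨a, ha⟩ := prod_lin ell
  refine ⟨a, ?_, fun x' hx' => ?_⟩
  · rw [ha]
    exact prod_ne_zero_iff.2 fun i _ => he1 i
  · rw [ha]
    refine prod_eq_zero (mem_univ (j ⟨x', hx'⟩)) ?_
    rw [he2]
    exact hL0 ⟨x', hx'⟩

/-- PROOF.  It is enough to find for every `x ∈ T` a form of degree `n` with the value `1` at `x` and `0` at the other elements (sum them up).  For `x' ∈ T`, `x' ≠ x` there is a linear form `l` with `l x' = 0`, `l x ≠ 0`: `x` is not a multiple of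
`x'`, so some `x_i x'_j - x_j x'_i ≠ 0` and `l u = u_i x'_j - u_j x'_i`.  There is a linear form with value `≠ 0` at `x` (a coordinate).  The product of the at most `n` forms of the first kind and of as many of the second kind as needed has degree `n` and the
value `≠ 0` at `x` (`prod_lin`), divide by it. -/
theorem ev_surj {F : Type} [Field F] {M n : ℕ} (T : Finset (Fin (M + 1) → F)) (h0 : ∀ x ∈ T, x ≠ 0)
    (hT : ∀ x ∈ T, ∀ y ∈ T, ∀ l : F, y = l • x → y = x) (hn : T.card ≤ n + 1) (y : T → F) :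
    ∃ a : MWS.Mo M n → F, ∀ x : T, ∑ γ, a γ * MWS.mo x.1 γ = y x := by
  classical
  choose a ha hb using A6_one (n := n) T h0 hT hn
  refine ⟨fun γ => ∑ x' : T, y x' / (∑ δ, a x' δ * MWS.mo x'.1 δ) * a x' γ, fun x => ?_⟩
  have h1 : ∑ γ, (∑ x' : T, y x' / (∑ δ, a x' δ * MWS.mo x'.1 δ) * a x' γ) * MWS.mo x.1 γ =
      ∑ x' : T, y x' / (∑ δ, a x' δ * MWS.mo x'.1 δ) * ∑ γ, a x' γ * MWS.mo x.1 γ := by
    simp only [sum_mul, mul_sum]
    rw [sum_comm]
    refine sum_congr rfl fun x' _ => sum_congr rfl fun γ _ => ?_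
    ring
  rw [h1, sum_eq_single x]
  · exact div_mul_cancel₀ _ (ha x)
  · intro x' _ hx'
    rw [hb x' x (Ne.symm hx'), mul_zero]
  · intro h
    exact absurd (mem_univ x) h

end FB
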