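import Pool.Agent.Lib.MP_17a322_ntVY.VB

/-!
# LEAF B0: normalised vectors over any finite field
-/

namespace FB

open Finset VK

/-- PROOF.  As the private lemma `VB_one` in `MP_17a322_ntVY/VB.lean` (copy). -/
theorem nrmF_one {F : Type} [Field F] {q : ℕ} {x : Fin q → F} {l : F} (hx : Nrm x) (hl : Nrm (l • x)) : l = 1 := by
  obtain ⟨i, h1, h2⟩ := hx
  obtain ⟨j, h3, h4⟩ := hl
  rw [Pi.smul_apply, smul_eq_mul] at h3
  rcases lt_trichotomy i j with h | h | h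
  · have h5 := h4 i h
    rw [Pi.smul_apply, smul_eq_mul, h1, mul_one] at h5
    rw [h5, zero_mul] at h3
    exact absurd h3 zero_ne_one
  · rw [← h, h1, mul_one] at h3
    exact h3
  · rw [h2 j h, mul_zero] at h3
    exact absurd h3 zero_ne_one

/-- PROOF.  As `card_nrm` in `MP_17a322_ntVY/VB.lean` with `Nat.card F` instead of `p` (`Nat.card Fˣ = Nat.card F - 1`, `Nat.card_units`, `2 ≤ Nat.card F`: `Finite.one_lt_card`). -/
theorem nrmF_card {F : Type} [Field F] [Finite F] {q C m : ℕ} (S : Set (Fin q → F))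
    (hS : ∀ x ∈ S, ∀ l : F, l • x ∈ S) (h : Nat.card S ≤ C * Nat.card F ^ (m + 1)) :
    Nat.card {x : Fin q → F | x ∈ S ∧ Nrm x} ≤ 2 * C * Nat.card F ^ m := by
  have hF : 2 ≤ Nat.card F := Finite.one_lt_card
  let Φ : Fˣ × {x : Fin q → F | x ∈ S ∧ Nrm x} → S :=
    fun a => ⟨(a.1 : F) • a.2.1, hS _ a.2.2.1 _⟩
  have hΦ : Function.Injective Φ := by
    rintro ⟨u, x⟩ ⟨v, y⟩ hxy
    have h1 : (u : F) • x.1 = (v : F) • y.1 := congrArg Subtype.val hxy
    have h2 : y.1 = (((v⁻¹ : Fˣ) : F) * u) • x.1 := by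
      rw [mul_smul, h1, smul_smul, Units.inv_mul, one_smul]
    have h3 : (((v⁻¹ : Fˣ) : F) * u) = 1 := by
      refine nrmF_one x.2.2 ?_
      rw [← h2]
      exact y.2.2
    have h4 : x = y := by
      apply Subtype.ext
      rw [h2, h3, one_smul]
    have h5 : u = v := by
      have h6 : v⁻¹ * u = 1 := Units.ext (by rw [Units.val_mul, h3, Units.val_one])
      exact (inv_mul_eq_one.1 h6).symm
    rw [h4, h5]
  have h1 := Nat.card_le_card_of_injective Φ hΦ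
  rw [Nat.card_prod, Nat.card_units] at h1
  obtain ⟨c, hc⟩ : ∃ c : ℕ, c = Nat.card {x : Fin q → F | x ∈ S ∧ Nrm x} := ⟨_, rfl⟩
  obtain ⟨p, hp⟩ : ∃ p : ℕ, p = Nat.card F := ⟨_, rfl⟩
  rw [← hc, ← hp] at h1
  rw [← hp] at h hF
  rw [← hc, ← hp]
  have h2 : (p - 1) * c ≤ C * p ^ (m + 1) := h1.trans h
  have h3 : p ≤ 2 * (p - 1) := by omega
  have h4 : p * c ≤ p * (2 * C * p ^ m) := by
    calc p * c ≤ 2 * (p - 1) * c := Nat.mul_le_mul_right _ h3
      _ = 2 * ((p - 1) * c) := by ring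
      _ ≤ 2 * (C * p ^ (m + 1)) := Nat.mul_le_mul_left _ h2
      _ = p * (2 * C * p ^ m) := by rw [pow_succ]; ring
  exact Nat.le_of_mul_le_mul_left h4 (by omega)

end FB
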