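import Pool.Agent.Lib.MP_17a322_ntFY.Stmt
import Pool.Agent.Lib.MP_17a322_ntVY.UJ
import Pool.Agent.Lib.MP_17a322_ntVY.VG

/-!
# LEAF B1: the number of points of all fibres
-/

namespace FB

open Finset NumberField VK

private theorem B1_sM {F : Type} [Field F] {g M w : ℕ} {δ : Fin w → ℕ} {d' : Fin w → Fin g → ℕ}
    (b0 : RamCov.IxC M δ d' → F) (x : Fin 0 → F) (P : Fin g → Option (F × F)) (u : Fin (M + 1) → F) (k : Fin w) :
    sM (fun (_ : Fin w) (_ : Unit) (_ : Fin 0) => (0 : ℤ))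
      (fun z : IxM Unit M δ d' => b0 ⟨z.1, (z.2.1, z.2.2.2)⟩) x P u k = sec b0 P u k := by
  unfold sM sec
  refine Fintype.sum_equiv (Equiv.prodCongr (Equiv.refl _) (Equiv.punitProd _)) _ _ fun t => ?_
  have h1 : bT (fun (_ : Unit) (_ : Fin 0) => (0 : ℤ)) x P t.2 =
      ∏ l, RamCov.bas F (d' k l) (P l) (t.2.2 l) := by
    unfold bT
    rw [Fin.prod_univ_zero, one_mul]
  show b0 ⟨k, (t.1, t.2.2)⟩ * (MWS.mo u t.1 * bT (fun (_ : Unit) (_ : Fin 0) => (0 : ℤ)) x P t.2) =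
    b0 ⟨k, (t.1, t.2.2)⟩ * (MWS.mo u t.1 * ∏ l, RamCov.bas F (d' k l) (P l) (t.2.2 l))
  rw [h1]

/-- PROOF.  `VK.fib_of` (`MP_17a322_ntVY/VG.lean`) and `VK.cnt_fib` (`MP_17a322_ntVY/UJ.lean`) with `n = 0`, `h = g`, `κ = Unit`, `A' = fun _ => A`, `B' = fun _ => B`, `E' = fun _ _ => 0` (or `Fin.elim0`), the coefficients `b' ⟨k, (γ, ((), t))⟩ = b ⟨k, (γ, t)⟩`, `x = Fin.elim0`, `v = 0`: `sM E' b' x P u k = sec b P u k`
(the product over `Fin 0` is `1`, the sum over `MWS.Mo × (Unit × IxG)` is the sum over `MWS.Mo × IxG`: `Fintype.sum_prod_type`, `Fintype.sum_unique` or an equivalence). -/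
theorem cntY {K : Type} [Field K] [NumberField K] {g M w : ℕ} {δ : Fin w → ℕ} {d' : Fin w → Fin g → ℕ} (A B : 𝓞 K)
    (b : RamCov.IxC M δ d' → 𝓞 K) (r : ℕ) (h : FibD A B b r) : ∃ C N0 : ℕ, N0 ≠ 0 ∧ ∀ (F : Type) [Field F] [Finite F]
      (φ : 𝓞 K →+* F), (N0 : F) ≠ 0 → ∀ P : Fin g → Option (F × F), (∀ l, IsPt (φ A) (φ B) (P l)) →
        Nat.card {u : Fin (M + 1) → F // ∀ k, sec (fun t => φ (b t)) P u k = 0} ≤ C * Nat.card F ^ r := by
  have hP : FibP (fun _ : Fin g => A) (fun _ : Fin g => B) (fun (_ : Fin w) (_ : Unit) (_ : Fin 0) => (0 : ℤ))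
      (fun z : IxM Unit M δ d' => b ⟨z.1, (z.2.1, z.2.2.2)⟩) r := by
    intro x P _ hP
    obtain ⟨ell, hell⟩ := h P hP
    refine ⟨ell, fun u hu hl => hell u (fun k => ?_) hl⟩
    have h1 := hu k
    rw [← B1_sM (fun t => algebraMap K (AlgebraicClosure K) (b t)) x P u k]
    exact h1
  obtain ⟨C, N0, hN0, hc⟩ := cnt_fib K (fun _ : Fin g => A) (fun _ : Fin g => B)
    (fun (_ : Fin w) (_ : Unit) (_ : Fin 0) => (0 : ℤ))
    (fun z : IxM Unit M δ d' => b ⟨z.1, (z.2.1, z.2.2.2)⟩) r (fib_of hP)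
  refine ⟨C, N0, hN0, ?_⟩
  intro F _ _ φ hφ P hPt
  have h2 := hc F φ hφ (fun l => Fin.elim0 l) P (fun l => Fin.elim0 l) hPt (fun _ => 0) (fun _ => Or.inl rfl)
  have h3 : ∀ u : Fin (M + 1) → F, (∀ k, sec (fun t => φ (b t)) P u k = 0) ↔
      ∀ k, sM (fun (_ : Fin w) (_ : Unit) (_ : Fin 0) => (0 : ℤ))
        (fun z : IxM Unit M δ d' => φ (b ⟨z.1, (z.2.1, z.2.2.2)⟩)) (fun l => Fin.elim0 l) P u k = 0 := by
    intro u
    refine forall_congr' fun k => ?_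
    rw [← B1_sM (fun t => φ (b t)) (fun l => Fin.elim0 l) P u k]
  rw [Nat.card_congr (Equiv.subtypeEquivRight h3)]
  exact h2

end FB
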