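import Pool.Agent.Lib.MP_17a322_ntFB.Stmt

/-!
# Fixed varieties over the powers of a fixed elliptic curve: the definitions of the statement
-/

namespace FB

open Finset NumberField VK

/-- the value at `(P, u)` of the `k`-th section with the coefficients `b`: a form of degree `δ k` in `u` whose coefficients
are sections of `O(2 d_1 O) ⊠ .. ⊠ O(2 d_g O)` -/
def sec {F : Type} [Field F] {g M w : ℕ} {δ : Fin w → ℕ} {d' : Fin w → Fin g → ℕ} (b : RamCov.IxC M δ d' → F)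
    (P : Fin g → Option (F × F)) (u : Fin (M + 1) → F) (k : Fin w) : F :=
  ∑ t : MWS.Mo M (δ k) × RamCov.IxG (d' k), b ⟨k, t⟩ * (MWS.mo u t.1 * ∏ l, RamCov.bas F (d' k l) (P l) (t.2 l))

/-- all the fibres over `E^g` of the closed subset `Y` of `E^g × ℙ^M` given by the sections with the coefficients `b`
have dimension at most `r - 1`: for every point `P` over the algebraic closure there are `r` linear forms without common
zero on the fibre -/
def FibD {K : Type} [Field K] [NumberField K] {g M w : ℕ} {δ : Fin w → ℕ} {d' : Fin w → Fin g → ℕ} (A B : 𝓞 K)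
    (b : RamCov.IxC M δ d' → 𝓞 K) (r : ℕ) : Prop :=
  ∀ P : Fin g → Option (AlgebraicClosure K × AlgebraicClosure K),
    (∀ l, IsPt (algebraMap K (AlgebraicClosure K) A) (algebraMap K (AlgebraicClosure K) B) (P l)) →
    ∃ ell : Fin r → Fin (M + 1) → AlgebraicClosure K, ∀ u : Fin (M + 1) → AlgebraicClosure K,
      (∀ k, sec (fun t => algebraMap K (AlgebraicClosure K) (b t)) P u k = 0) → (∀ a, ∑ c, ell a c * u c = 0) → u = 0

/-- the subvariety `F_1 = .. = F_s = 0` of `Y` has a point `(P, u)` with `P_l ∈ Γ`, `u ∈ ℙ^M(K)` -/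
def ComFY {K : Type} [Field K] [NumberField K] [DecidableEq K] {A B : K} {e g M w s : ℕ} (ω : Fin e → 𝓞 K)
    (Γ : AddSubgroup (Pt A B)) {δ : Fin w → ℕ} {d' : Fin w → Fin g → ℕ} (b : RamCov.IxC M δ d' → 𝓞 K) {ν : Fin s → ℕ}
    {d : Fin s → Fin g → ℕ} (a : RamCov.IxC M ν d × Fin e → ℤ) : Prop :=
  ∃ P : Fin g → Pt A B, (∀ l, P l ∈ Γ) ∧ ∃ u : Fin (M + 1) → K, u ≠ 0 ∧
    (∀ k, sec (fun t => ((b t : 𝓞 K) : K)) (fun l => opP (P l)) u k = 0) ∧
    ∀ j, sec (cf ω a) (fun l => opP (P l)) u j = 0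

/-- some cover `γ w ^ r = F` of `Y`, `γ ∈ G`, has a point with `P_l ∈ Γ`, `u ∈ ℙ^M(K)`, `w ∈ K`; `F` is the section with
the coefficients `cf ω a`, of degree `n` in `u` -/
def CovFY {K : Type} [Field K] [NumberField K] [DecidableEq K] {A B : K} {e g M w : ℕ} (ω : Fin e → 𝓞 K)
    (Γ : AddSubgroup (Pt A B)) (G : Subgroup Kˣ) (r : ℕ) {δ : Fin w → ℕ} {d' : Fin w → Fin g → ℕ}
    (b : RamCov.IxC M δ d' → 𝓞 K) {n : ℕ} {d : Fin g → ℕ}
    (a : RamCov.IxC M (fun _ : Fin 1 => n) (fun _ => d) × Fin e → ℤ) : Prop :=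
  ∃ P : Fin g → Pt A B, (∀ l, P l ∈ Γ) ∧ ∃ u : Fin (M + 1) → K, u ≠ 0 ∧
    (∀ k, sec (fun t => ((b t : 𝓞 K) : K)) (fun l => opP (P l)) u k = 0) ∧
    ∃ γ ∈ G, ∃ w : K, (γ : K) * w ^ r = sec (cf ω a) (fun l => opP (P l)) u 0

end FB
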