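import Pool.Agent.Lib.MP_17a322_ntFY.A6
import Pool.Agent.Lib.MP_17a322_ntFY.B0
import Pool.Agent.Lib.MP_17a322_ntFY.Stmt
import Pool.Agent.Lib.MP_17a322_ntFB.PL1

/-!
# LEAF B2a: the values of the sections with coefficients in a box
-/

namespace FB

open Finset NumberField VK IsDedekindDomain

/-- the value at `(z, y)` of the section with the coefficients `∑ k, c (t, k) ω k`, in the residue field -/
noncomputable def evH {K : Type} [Field K] [NumberField K] (v : HeightOneSpectrum (𝓞 K)) {p : ℕ} (hc : CharP (RF v) p)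
    {g M n e : ℕ} {d : Fin g → ℕ} (ω : Fin e → 𝓞 K) (z : Fin g → Option (RF v × RF v)) (y : Fin (M + 1) → RF v) :
    ((MWS.Mo M n × RamCov.IxG d) × Fin e → ZMod p) →+ RF v where
  toFun c := ∑ t : MWS.Mo M n × RamCov.IxG d, (∑ k, (ZMod.cast (c (t, k)) : RF v) * rf (pV v) ((ω k : 𝓞 K) : K)) *
    (MWS.mo y t.1 * ∏ l, RamCov.bas (RF v) (d l) (z l) (t.2 l))
  map_zero' := by
    refine Finset.sum_eq_zero fun t _ => ?_
    have h1 : ∑ k, (ZMod.cast ((0 : (MWS.Mo M n × RamCov.IxG d) × Fin e → ZMod p) (t, k)) : RF v) *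
        rf (pV v) ((ω k : 𝓞 K) : K) = 0 := by
      refine Finset.sum_eq_zero fun k _ => ?_
      rw [Pi.zero_apply, ZMod.cast_zero, zero_mul]
    rw [h1, zero_mul]
  map_add' c c' := by
    rw [← Finset.sum_add_distrib]
    refine Finset.sum_congr rfl fun t _ => ?_
    rw [← add_mul, ← Finset.sum_add_distrib]
    congr 1
    refine Finset.sum_congr rfl fun k _ => ?_
    rw [Pi.add_apply, ← add_mul]
    congr 1
    exact map_add (ZMod.castHom (dvd_refl p) (RF v)) _ _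

/-- PROOF.  `bas_neG` (PL1): some `t₀ : IxG d` with `b₀ = ∏ l, bas (z l) (t₀ l) ≠ 0`.  Given target values `f : T → RF v`, `ev_surj` (A6; normalised vectors are not zero, `nrm_ne`, and different ones are not proportional, `nrmF_one`) gives `a : Mo M n → RF v` with
`∑ γ, a γ * mo x γ = f x / b₀`; `w_surj` gives for every `γ` a vector `Fin e → ZMod p` with `∑ k, cast (..) * rf (ω k) = a γ`; put it at `(γ, t₀)` and `0` at `(γ, t)`, `t ≠ t₀` (as in `dens_RAG`, PG.lean). -/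
theorem evH_surj {K : Type} [Field K] [NumberField K] (v : HeightOneSpectrum (𝓞 K)) {p : ℕ} (hc : CharP (RF v) p)
    {g M n e : ℕ} {d : Fin g → ℕ} (ω : Module.Basis (Fin e) ℤ (𝓞 K)) (z : Fin g → Option (RF v × RF v))
    (T : Finset (Fin (M + 1) → RF v)) (hT : ∀ x ∈ T, Nrm x) (hn : T.card ≤ n + 1) :
    Function.Surjective fun (c : (MWS.Mo M n × RamCov.IxG d) × Fin e → ZMod p) (x : T) => evH v hc ω z x.1 c := by
  classical
  obtain ⟨t₀, ht₀⟩ := bas_neG d z
  intro f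
  have h0 : ∀ x ∈ T, x ≠ 0 := fun x hx => nrm_ne (hT x hx)
  have hT' : ∀ x ∈ T, ∀ y ∈ T, ∀ l : RF v, y = l • x → y = x := by
    intro x hx y hy l hl
    have h1 : Nrm (l • x) := by
      rw [← hl]
      exact hT y hy
    rw [hl, nrmF_one (hT x hx) h1, one_smul]
  obtain ⟨a, ha⟩ := ev_surj T h0 hT' hn fun x : T => f x * (∏ l, RamCov.bas (RF v) (d l) (z l) (t₀ l))⁻¹
  choose A hA using fun γ : MWS.Mo M n => w_surj hc ω (a γ)
  refine ⟨fun q => if q.1.2 = t₀ then A q.1.1 q.2 else 0, ?_⟩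
  funext x
  have h1 : ∀ t : MWS.Mo M n × RamCov.IxG d,
      (∑ k, (ZMod.cast (if (t, k).1.2 = t₀ then A (t, k).1.1 (t, k).2 else (0 : ZMod p)) : RF v) *
        rf (pV v) ((ω k : 𝓞 K) : K)) = if t.2 = t₀ then a t.1 else 0 := by
    intro t
    by_cases ht : t.2 = t₀
    · rw [if_pos ht, ← hA t.1]
      refine Finset.sum_congr rfl fun k _ => ?_
      rw [if_pos ht]
    · rw [if_neg ht]
      refine Finset.sum_eq_zero fun k _ => ?_
      rw [if_neg ht, ZMod.cast_zero, zero_mul]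
  show (∑ t : MWS.Mo M n × RamCov.IxG d,
      (∑ k, (ZMod.cast (if (t, k).1.2 = t₀ then A (t, k).1.1 (t, k).2 else (0 : ZMod p)) : RF v) *
        rf (pV v) ((ω k : 𝓞 K) : K)) * (MWS.mo x.1 t.1 * ∏ l, RamCov.bas (RF v) (d l) (z l) (t.2 l))) = f x
  rw [Finset.sum_congr rfl fun t _ => by rw [h1 t], Fintype.sum_prod_type]
  have h2 : ∀ γ : MWS.Mo M n, (∑ r : RamCov.IxG d, (if r = t₀ then a γ else 0) *
      (MWS.mo x.1 γ * ∏ l, RamCov.bas (RF v) (d l) (z l) (r l))) =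
      (a γ * MWS.mo x.1 γ) * ∏ l, RamCov.bas (RF v) (d l) (z l) (t₀ l) := by
    intro γ
    rw [Finset.sum_eq_single t₀]
    · rw [if_pos rfl, mul_assoc]
    · intro r _ hr
      rw [if_neg hr, zero_mul]
    · intro h
      exact absurd (Finset.mem_univ _) h
  rw [Finset.sum_congr rfl fun γ _ => h2 γ, ← Finset.sum_mul, ha x, mul_assoc, inv_mul_cancel₀ ht₀, mul_one]

end FB
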