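import Pool.Agent.Lib.MP_17a322_ntFY.A4
import Pool.Agent.Lib.MP_17a322_ntFY.B1
import Pool.Agent.Lib.MP_17a322_ntFY.B2a

/-!
# LEAF B2: the density for the complete intersections in `Y`
-/

namespace FB

open Finset NumberField VK IsDedekindDomain

/-- the local condition for the complete intersections in `Y` -/
def RYV {K : Type} [Field K] [NumberField K] {g M w s e : ℕ} (A B : 𝓞 K) {δ : Fin w → ℕ} {d' : Fin w → Fin g → ℕ}
    (b : RamCov.IxC M δ d' → 𝓞 K) (ν : Fin s → ℕ) (d : Fin s → Fin g → ℕ) (ω : Fin e → 𝓞 K) :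
    LocV K g (RamCov.IxC M ν d × Fin e) := fun v _ z =>
  {c | (∀ l, IsPt (rf (pV v) ((A : 𝓞 K) : K)) (rf (pV v) ((B : 𝓞 K) : K)) (z l)) ∧ ∃ y : Fin (M + 1) → RF v, y ≠ 0 ∧
    (∀ k, sec (fun t => rf (pV v) ((b t : 𝓞 K) : K)) z y k = 0) ∧
    ∀ j, sec (fun t => ∑ k, (ZMod.cast (c (t, k)) : RF v) * rf (pV v) ((ω k : 𝓞 K) : K)) z y j = 0}

/-- the residue map as a homomorphism of rings.  PROOF.  As `res_hom` (`MP_17a322_ntVY/VD.lean`): `(pV v).ρ` composed with the map `𝓞 K → VR v` (`int_mem`), `rf`, `dif_pos`. -/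
theorem rf_hom {K : Type} [Field K] [NumberField K] (v : HeightOneSpectrum (𝓞 K)) :
    ∃ φ : 𝓞 K →+* RF v, ∀ a : 𝓞 K, φ a = rf (pV v) ((a : 𝓞 K) : K) := by
  refine ⟨(pV v).ρ.comp ((algebraMap (𝓞 K) K).codRestrict (pV v).V fun x => int_mem (pV v) x), fun a => ?_⟩
  unfold rf
  rw [dif_pos (int_mem (pV v) a)]
  rfl

private theorem B2_mo {F : Type} [Field F] {M n : ℕ} (l : F) (y : Fin (M + 1) → F) (γ : MWS.Mo M n) :
    MWS.mo (l • y) γ = l ^ n * MWS.mo y γ := by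
  unfold MWS.mo
  have h : ∏ i, l ^ ((γ.1 i : ℕ)) = l ^ n := by
    rw [Finset.prod_pow_eq_pow_sum, γ.2]
  rw [← h, ← Finset.prod_mul_distrib]
  refine Finset.prod_congr rfl fun i _ => ?_
  rw [Pi.smul_apply, smul_eq_mul, mul_pow]

private theorem B2_sec {F : Type} [Field F] {g M w : ℕ} {δ : Fin w → ℕ} {d' : Fin w → Fin g → ℕ}
    (b : RamCov.IxC M δ d' → F) (P : Fin g → Option (F × F)) (l : F) (u : Fin (M + 1) → F) (k : Fin w) :
    sec b P (l • u) k = l ^ δ k * sec b P u k := by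
  unfold sec
  rw [Finset.mul_sum]
  refine Finset.sum_congr rfl fun t _ => ?_
  rw [B2_mo]
  ring

/-- the coefficients of the sections of index `j ≠ i0` and those of the section of index `i0` -/
private def B2_sp {M s g e p : ℕ} (ν : Fin s → ℕ) (d : Fin s → Fin g → ℕ) (i0 : Fin s)
    (c : RamCov.IxC M ν d × Fin e → ZMod p) :
    ((j : {j : Fin s // j ≠ i0}) → ((MWS.Mo M (ν j.1) × RamCov.IxG (d j.1)) × Fin e → ZMod p)) ×
      ((MWS.Mo M (ν i0) × RamCov.IxG (d i0)) × Fin e → ZMod p) :=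
  (fun j tk => c (⟨j.1, tk.1⟩, tk.2), fun tk => c (⟨i0, tk.1⟩, tk.2))

private theorem B2_bij {M s g e p : ℕ} (ν : Fin s → ℕ) (d : Fin s → Fin g → ℕ) (i0 : Fin s) :
    Function.Bijective (B2_sp (M := M) (e := e) (p := p) ν d i0) := by
  constructor
  · intro c c' h
    funext ⟨⟨j, t⟩, k⟩
    by_cases hj : j = i0
    · subst hj
      exact congrFun (congrArg Prod.snd h) (t, k)
    · exact congrFun (congrFun (congrArg Prod.fst h) ⟨j, hj⟩) (t, k)
  · rintro ⟨a, a'⟩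
    refine ⟨fun x => if h : x.1.1 = i0 then a' (h ▸ x.1.2, x.2) else a ⟨x.1.1, h⟩ (x.1.2, x.2), ?_⟩
    refine Prod.ext ?_ ?_
    · funext j tk
      show (if h : j.1 = i0 then a' (h ▸ tk.1, tk.2) else a ⟨j.1, h⟩ (tk.1, tk.2)) = a j tk
      rw [dif_neg j.2]
    · funext tk
      show (if h : i0 = i0 then a' (h ▸ tk.1, tk.2) else a ⟨i0, h⟩ (tk.1, tk.2)) = a' tk
      rw [dif_pos rfl]

/-- the values at `(z, y)` of the sections of index `j ≠ i0` -/
private noncomputable def B2_K {K : Type} [Field K] [NumberField K] (v : HeightOneSpectrum (𝓞 K)) {p : ℕ}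
    (hc : CharP (RF v) p) {g M s e : ℕ} {ν : Fin s → ℕ} {d : Fin s → Fin g → ℕ} (ω : Fin e → 𝓞 K)
    (z : Fin g → Option (RF v × RF v)) (i0 : Fin s) (y : Fin (M + 1) → RF v) :
    ((j : {j : Fin s // j ≠ i0}) → ((MWS.Mo M (ν j.1) × RamCov.IxG (d j.1)) × Fin e → ZMod p)) →+
      ({j : Fin s // j ≠ i0} → RF v) where
  toFun c j := evH v hc ω z y (c j)
  map_zero' := funext fun _ => map_zero (evH v hc ω z y)
  map_add' c c' := funext fun j => map_add (evH v hc ω z y) (c j) (c' j)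

private theorem B2_Ksurj {K : Type} [Field K] [NumberField K] (v : HeightOneSpectrum (𝓞 K)) {p : ℕ}
    (hc : CharP (RF v) p) {g M s e : ℕ} {ν : Fin s → ℕ} {d : Fin s → Fin g → ℕ}
    (ω : Module.Basis (Fin e) ℤ (𝓞 K)) (z : Fin g → Option (RF v × RF v)) (i0 : Fin s)
    (y : Fin (M + 1) → RF v) (hy : Nrm y) :
    Function.Surjective (B2_K (M := M) (ν := ν) (d := d) v hc ω z i0 y) := by
  intro f
  have h1 : ∀ j : {j : Fin s // j ≠ i0}, ∃ c : (MWS.Mo M (ν j.1) × RamCov.IxG (d j.1)) × Fin e → ZMod p,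
      evH v hc ω z y c = f j := by
    intro j
    obtain ⟨c, hcc⟩ := evH_surj (n := ν j.1) (d := d j.1) v hc ω z {y}
      (fun x hx => by rw [Finset.mem_singleton.1 hx]; exact hy) (by rw [Finset.card_singleton]; omega)
      (fun _ => f j)
    exact ⟨c, congrFun hcc ⟨y, Finset.mem_singleton_self y⟩⟩
  choose c hcc using h1
  exact ⟨c, funext hcc⟩

private theorem B2_mem {α : Type} {S : α → Prop} (T : Finset {x : α // S x}) {x : α}
    (hx : x ∈ T.map (Function.Embedding.subtype _)) : S x := by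
  obtain ⟨t, -, ht⟩ := Finset.mem_map.1 hx
  rw [← ht]
  exact t.2

private theorem B2_mem' {α : Type} {S : α → Prop} (T : Finset {x : α // S x}) {x : α}
    (hx : x ∈ T.map (Function.Embedding.subtype _)) : (⟨x, B2_mem T hx⟩ : {x : α // S x}) ∈ T := by
  obtain ⟨t, ht1, ht⟩ := Finset.mem_map.1 hx
  have h1 : (⟨x, B2_mem T hx⟩ : {x : α // S x}) = t := Subtype.ext ht.symm
  rw [h1]
  exact ht1

private theorem B2_Lsurj {K : Type} [Field K] [NumberField K] (v : HeightOneSpectrum (𝓞 K)) {p : ℕ}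
    (hc : CharP (RF v) p) {g M n e : ℕ} {d : Fin g → ℕ} (ω : Module.Basis (Fin e) ℤ (𝓞 K))
    (z : Fin g → Option (RF v × RF v)) {S : (Fin (M + 1) → RF v) → Prop} (hS : ∀ x, S x → Nrm x)
    (T : Finset {x : Fin (M + 1) → RF v // S x}) (hT : T.card ≤ n + 1) :
    Function.Surjective fun (c : (MWS.Mo M n × RamCov.IxG d) × Fin e → ZMod p) (t : T) =>
      evH v hc ω z t.1.1 c := by
  intro f
  obtain ⟨c, hcc⟩ := evH_surj (n := n) (d := d) v hc ω z (T.map (Function.Embedding.subtype _))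
    (fun x hx => by
      obtain ⟨t, -, ht⟩ := Finset.mem_map.1 hx
      rw [← ht]
      exact hS _ t.2) (by rw [Finset.card_map]; exact hT)
    (fun x => f ⟨⟨x.1, B2_mem T x.2⟩, B2_mem' T x.2⟩)
  exact ⟨c, funext fun t => congrFun hcc ⟨t.1.1, Finset.mem_map_of_mem _ t.2⟩⟩

/-- THE DENSITY.  PROOF.  `C`, `N0` of `cntY` with `r = m + 1`; `r`, `κ` of `two_forms (2 * C)`; `ν0 = r`.  `DensV (N0 + 1)`-type bound: for `p ≥ N0 + 1` the number `N0` is not zero in `RF v` (`CharP.cast_eq_zero_iff`, `Nat.le_of_dvd`).  Let `v`, `p`, `z` be given.  If some `z l` is not on the curve the set is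
empty.  Otherwise `S = {y | all sec .. = 0}` is stable under scalars (`sec` is homogeneous: `MWS.mo (l • y) γ = l ^ δ * MWS.mo y γ`) and `#S ≤ C q^(m+1)`, `q = Nat.card (RF v)` (`cntY`, `rf_hom`), so `Z = {y ∈ S, Nrm y}` has at most `2 C q^m ≤ 2 C q^s` elements (`nrmF_card`, `m ≤ s`).
Let `ν0 ≤ ν i0`.  `V' = ({t : IxC M ν d // t.1 ≠ i0} × Fin e → ZMod p)`, `V = ((MWS.Mo M (ν i0) × IxG (d i0)) × Fin e → ZMod p)`, `W = ({j // j ≠ i0} → RF v)`, `#W = q^(s - 1)`; `K y` = the values at `y` of the sections of index `j ≠ i0` (surjective: for every `j` separately, `evH_surj` with `T = {y}`,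
`1 ≤ ν j + 1`), `L y = evH v hc ω z y`, `evH_surj` for the finite subsets of at most `r ≤ ν i0 + 1` elements.  The vectors `c` correspond to the pairs (an equivalence `(IxC M ν d × Fin e → ZMod p) ≃ V' × V`), `c ∈ RYV ..` iff there is such a `y ≠ 0` in `S`, iff there is one in `Z` (`nrm_ex`, homogeneity).
`#V' #V = p ^ Fintype.card (IxC M ν d × Fin e)`. -/
theorem dens_RYV {K : Type} [Field K] [NumberField K] {g M w m : ℕ} {δ : Fin w → ℕ} {d' : Fin w → Fin g → ℕ}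
    (A B : 𝓞 K) (b : RamCov.IxC M δ d' → 𝓞 K) (h : FibD A B b (m + 1)) : ∃ (ν0 N0 : ℕ) (κ : ℝ), 0 < κ ∧
      ∀ (s e : ℕ) (ν : Fin s → ℕ) (d : Fin s → Fin g → ℕ) (ω : Module.Basis (Fin e) ℤ (𝓞 K)), m ≤ s → (∀ j, 1 ≤ ν j) →
        (∃ j, ν0 ≤ ν j) → DensV N0 (RYV A B b ν d ω) κ := by
  classical
  obtain ⟨C, N0, hN0, hcnt⟩ := cntY A B b (m + 1) h
  obtain ⟨r, κ, hκ, hκ1, htwo⟩ := two_forms (2 * C)
  refine ⟨r, N0 + 1, κ, hκ, ?_⟩
  rintro s e ν d ω hms hν ⟨i0, hi0⟩ v p hpp hc hp z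
  have hfp : Fact p.Prime := ⟨hpp⟩
  have hfin : Finite (RF v) := finite_RF v
  have hpN : (0 : ℝ) ≤ (p : ℝ) ^ Fintype.card (RamCov.IxC M ν d × Fin e) := by positivity
  by_cases hz : ∀ l, IsPt (rf (pV v) ((A : 𝓞 K) : K)) (rf (pV v) ((B : 𝓞 K) : K)) (z l)
  swap
  · have h0 : Nat.card (RYV A B b ν d ω v p z) = 0 := by
      have hE : IsEmpty (RYV A B b ν d ω v p z) := ⟨fun c => hz c.2.1⟩
      exact Nat.card_of_isEmpty
    rw [h0, Nat.cast_zero]
    exact mul_nonneg (by linarith) hpN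
  obtain ⟨φ, hφ⟩ := rf_hom v
  have hN : (N0 : RF v) ≠ 0 := by
    intro h0
    have h1 := (CharP.cast_eq_zero_iff (RF v) p N0).1 h0
    have h2 := Nat.le_of_dvd (Nat.pos_of_ne_zero hN0) h1
    omega
  have h1 := hcnt (RF v) φ hN z (fun l => by rw [hφ, hφ]; exact hz l)
  have h2 : Nat.card {x : Fin (M + 1) → RF v | x ∈ {u | ∀ k, sec (fun t => φ (b t)) z u k = 0} ∧ Nrm x} ≤
      2 * C * Nat.card (RF v) ^ m := by
    refine nrmF_card (C := C) (m := m) {u | ∀ k, sec (fun t => φ (b t)) z u k = 0} (fun x hx l k => ?_) h1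
    rw [B2_sec, hx k, mul_zero]
  have hq : 2 ≤ Nat.card (RF v) := Finite.one_lt_card
  have hW : Nat.card (RF v) * Nat.card ({j : Fin s // j ≠ i0} → RF v) = Nat.card (RF v) ^ s := by
    rw [← Nat.card_prod, ← Nat.card_congr (Equiv.funSplitAt i0 (RF v)), Nat.card_fun, Nat.card_fin]
  have h3 := htwo ((j : {j : Fin s // j ≠ i0}) → ((MWS.Mo M (ν j.1) × RamCov.IxG (d j.1)) × Fin e → ZMod p))
    ((MWS.Mo M (ν i0) × RamCov.IxG (d i0)) × Fin e → ZMod p) (RF v) ({j : Fin s // j ≠ i0} → RF v)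
    {x : Fin (M + 1) → RF v // x ∈ {u | ∀ k, sec (fun t => φ (b t)) z u k = 0} ∧ Nrm x}
    (fun y => B2_K v hc ω z i0 y.1) (fun y => evH v hc ω z y.1) hq
    (fun y => B2_Ksurj v hc ω z i0 y.1 y.2.2) (by
      rw [hW]
      refine h2.trans ?_
      exact Nat.mul_le_mul_left _ (Nat.pow_le_pow_right (by omega) hms))
    (fun T hT => B2_Lsurj v hc ω z (fun x hx => hx.2) T (hT.trans (hi0.trans (Nat.le_succ _))))
  have h4 := Nat.card_eq_of_bijective _ (B2_bij (M := M) (e := e) (p := p) ν d i0)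
  have h5 : Nat.card (RamCov.IxC M ν d × Fin e → ZMod p) = p ^ Fintype.card (RamCov.IxC M ν d × Fin e) := by
    rw [Nat.card_eq_fintype_card, Fintype.card_fun, ZMod.card]
  rw [h5, Nat.card_prod] at h4
  have h6 : Nat.card (RYV A B b ν d ω v p z) ≤ _ := Nat.card_le_card_of_injective
    (fun c : RYV A B b ν d ω v p z => (⟨B2_sp ν d i0 c.1, ?_⟩ : {v' : ((j : {j : Fin s // j ≠ i0}) →
      ((MWS.Mo M (ν j.1) × RamCov.IxG (d j.1)) × Fin e → ZMod p)) ×
      ((MWS.Mo M (ν i0) × RamCov.IxG (d i0)) × Fin e → ZMod p) //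
      ∃ y : {x : Fin (M + 1) → RF v // x ∈ {u | ∀ k, sec (fun t => φ (b t)) z u k = 0} ∧ Nrm x},
        B2_K v hc ω z i0 y.1 v'.1 = 0 ∧ evH v hc ω z y.1 v'.2 = 0})) ?_
  · calc (Nat.card (RYV A B b ν d ω v p z) : ℝ) ≤ _ := by exact_mod_cast h6
      _ ≤ _ := h3
      _ = _ := by
        have h7 := congrArg (fun n : ℕ => (n : ℝ)) h4
        simp only [Nat.cast_mul, Nat.cast_pow] at h7
        rw [h7]
  · obtain ⟨-, y, hy0, hyb, hyc⟩ := c.2
    obtain ⟨l, hl0, hl⟩ := nrm_ex hy0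
    refine ⟨⟨l • y, fun k => ?_, hl⟩, ?_, ?_⟩
    · have h8 := hyb k
      have h9 : (fun t => φ (b t)) = fun t => rf (pV v) ((b t : 𝓞 K) : K) := funext fun t => hφ (b t)
      rw [h9, B2_sec, h8, mul_zero]
    · funext j
      have h8 := B2_sec (fun t => ∑ k, (ZMod.cast (c.1 (t, k)) : RF v) * rf (pV v) ((ω k : 𝓞 K) : K)) z l y j.1
      rw [hyc j.1, mul_zero] at h8
      exact h8
    · have h8 := B2_sec (fun t => ∑ k, (ZMod.cast (c.1 (t, k)) : RF v) * rf (pV v) ((ω k : 𝓞 K) : K)) z l y i0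
      rw [hyc i0, mul_zero] at h8
      exact h8
  · intro c c' hcc
    exact Subtype.ext ((B2_bij ν d i0).1 (congrArg Subtype.val hcc))

end FB
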