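import Pool.Agent.Lib.MP_17a322_ntFY.B2
import Pool.Agent.Lib.MP_17a322_ntFB.PL2

/-!
# LEAF B3: a point satisfies the local conditions
-/

namespace FB

open Finset NumberField VK IsDedekindDomain

private theorem B3_scale {K F : Type} [Field K] [Field F] (π : PF K F) {s : ℕ} (y : Fin s → K) (hy : y ≠ 0) :
    ∃ (c : K) (y' : Fin s → F), c ≠ 0 ∧ y' ≠ 0 ∧ ∀ l, Rf π (c * y l) (y' l) := by
  obtain ⟨i, hi⟩ := Function.ne_iff.1 hy
  obtain ⟨k, -, hk⟩ := Finset.exists_max_image Finset.univ (fun l => π.V.valuation (y l)) ⟨i, Finset.mem_univ i⟩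
  have hk0 : y k ≠ 0 := by
    intro h1
    have h2 := hk i (Finset.mem_univ i)
    rw [h1, map_zero] at h2
    exact hi (π.V.valuation.zero_iff.1 (le_antisymm h2 zero_le))
  have hm : ∀ l, (y k)⁻¹ * y l ∈ π.V := by
    intro l
    rw [← ValuationSubring.valuation_le_one_iff, map_mul, map_inv₀]
    have h2 := hk l (Finset.mem_univ l)
    have h3 : π.V.valuation (y k) ≠ 0 := (π.V.valuation.ne_zero_iff).2 hk0
    calc (π.V.valuation (y k))⁻¹ * π.V.valuation (y l)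
        ≤ (π.V.valuation (y k))⁻¹ * π.V.valuation (y k) := mul_le_mul_right h2 _
      _ = 1 := inv_mul_cancel₀ h3
  refine ⟨(y k)⁻¹, fun l => π.ρ ⟨_, hm l⟩, inv_ne_zero hk0, ?_, fun l => ⟨hm l, rfl⟩⟩
  intro h1
  have h2 : π.ρ ⟨_, hm k⟩ = 0 := congrFun h1 k
  have h3 : Rf π ((y k)⁻¹ * y k) 0 := ⟨hm k, h2⟩
  rw [inv_mul_cancel₀ hk0] at h3
  exact one_ne_zero (Rf.one.unique h3 : (1 : F) = 0)

private theorem B3_cf {K F : Type} [Field K] [NumberField K] [Field F] {p : ℕ} [CharP F p] (π : PF K F)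
    {τ : Type} {e : ℕ} (ω : Fin e → 𝓞 K) (c : τ × Fin e → ℤ) (t : τ) :
    Rf π (cf ω c t) (∑ k, (ZMod.cast (((c (t, k) : ℤ)) : ZMod p) : F) * rf π ((ω k : 𝓞 K) : K)) := by
  have h1 := el_rf π ω (fun k => c (t, k))
  have h2 : (∑ k, (ZMod.cast (((c (t, k) : ℤ)) : ZMod p) : F) * rf π ((ω k : 𝓞 K) : K))
      = ∑ k, ((c (t, k) : ℤ) : F) * rf π ((ω k : 𝓞 K) : K) := by
    refine Finset.sum_congr rfl fun k _ => ?_
    rw [ZMod.cast_intCast']
  rw [h2]
  exact h1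

private theorem B3_mo {K : Type} [Field K] {m n : ℕ} (c : K) (u : Fin (m + 1) → K) (e : MWS.Mo m n) :
    MWS.mo (fun l => c * u l) e = c ^ n * MWS.mo u e := by
  unfold MWS.mo
  simp only [mul_pow]
  rw [Finset.prod_mul_distrib, Finset.prod_pow_eq_pow_sum, e.2]

private theorem B3_mo_rf {K F : Type} [Field K] [Field F] {π : PF K F} {m n : ℕ} {u : Fin (m + 1) → K}
    {y : Fin (m + 1) → F} (h : ∀ l, Rf π (u l) (y l)) (e : MWS.Mo m n) :
    Rf π (MWS.mo u e) (MWS.mo y e) :=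
  Rf.prod _ fun l _ => (h l).pow _

/-- PROOF.  As `rd_on` (`MP_17a322_ntVY/VD.lean`): `P = 0` reduces to `none`; `P = (x, y)` with `x ∉ V` too; for `x ∈ V` also `y ∈ V` (a valuation ring is integrally closed; see the proofs in `MP_17a322_ntFB/PD1.lean`, e.g. the lemma for `den_xyK`), and the equation reduces (`Rf.mul`, `Rf.add`, `Rf.unique`, `rf_res`). -/
theorem rdF_on {K : Type} [Field K] [NumberField K] (v : HeightOneSpectrum (𝓞 K)) (A B : 𝓞 K)
    (P : Pt (A : K) (B : K)) : IsPt (rf (pV v) ((A : 𝓞 K) : K)) (rf (pV v) ((B : 𝓞 K) : K)) (rdF (pV v) P) := by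
  classical
  have hA := int_mem (pV v) A
  have hB := int_mem (pV v) B
  rcases P with _ | ⟨x, y, hxy⟩
  · exact trivial
  · have he : y ^ 2 = x ^ 3 + (A : K) * x + (B : K) := (EK_eqn (A : K) (B : K) x y).1 hxy.1
    by_cases hx : x ∈ (pV v).V
    · have h1 : rdF (pV v) (.some x y hxy : Pt (A : K) (B : K)) = some (rf (pV v) x, rf (pV v) y) := by
        unfold rdF
        exact if_pos hx
      rw [h1]
      have hy : y ∈ (pV v).V := (den_xyK (pV v) hA hB he).1 hx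
      have h2 := (rf_res hy).pow 2
      have h3 := (((rf_res hx).pow 3).add ((rf_res hA).mul (rf_res hx))).add (rf_res hB)
      rw [he] at h2
      exact h2.unique h3
    · have h1 : rdF (pV v) (.some x y hxy : Pt (A : K) (B : K)) = none := by
        unfold rdF
        exact if_neg hx
      rw [h1]
      exact trivial

/-- one section.  PROOF.  As in `adm_RBV` (PL2.lean), for coefficients `a` which reduce to `a'`: `bas_redG` with `q = 1`, `Rf.sum`, `Rf.mul`, homogeneity. -/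
theorem sec_red {K : Type} [Field K] [NumberField K] (v : HeightOneSpectrum (𝓞 K)) {g M w : ℕ} {δ : Fin w → ℕ}
    {d : Fin w → Fin g → ℕ} (hd : ∀ k l, 1 ≤ d k l) {A B : 𝓞 K} (a : RamCov.IxC M δ d → K)
    (a' : RamCov.IxC M δ d → RF v) (ha : ∀ t, Rf (pV v) (a t) (a' t)) (P : Fin g → Pt (A : K) (B : K))
    (u : Fin (M + 1) → K) (c0 : K) (y : Fin (M + 1) → RF v) (hR : ∀ l, Rf (pV v) (c0 * u l) (y l)) (k : Fin w)
    (h : sec a (fun l => opP (P l)) u k = 0) : sec a' (fun l => rdF (pV v) (P l)) y k = 0 := by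
  obtain ⟨σ, -, hb⟩ := bas_redG (pV v) (int_mem (pV v) A) (int_mem (pV v) B) (q := 1) (d := d k) (hd k)
    (fun l => one_dvd _) P
  have hrd : Rf (pV v) (∑ t : MWS.Mo M (δ k) × RamCov.IxG (d k), a ⟨k, t⟩ *
      (MWS.mo (fun l => c0 * u l) t.1 *
        (σ ^ 1 * ∏ l, RamCov.bas K (d k l) (opP (P l)) (t.2 l))))
      (∑ t : MWS.Mo M (δ k) × RamCov.IxG (d k), a' ⟨k, t⟩ *
        (MWS.mo y t.1 * ∏ l, RamCov.bas (RF v) (d k l) (rdF (pV v) (P l)) (t.2 l))) :=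
    Rf.sum _ fun t _ => (ha ⟨k, t⟩).mul ((B3_mo_rf hR t.1).mul (hb t.2))
  have hz : (∑ t : MWS.Mo M (δ k) × RamCov.IxG (d k), a ⟨k, t⟩ *
      (MWS.mo (fun l => c0 * u l) t.1 *
        (σ ^ 1 * ∏ l, RamCov.bas K (d k l) (opP (P l)) (t.2 l)))) = 0 := by
    have h2 : (∑ t : MWS.Mo M (δ k) × RamCov.IxG (d k), a ⟨k, t⟩ *
        (MWS.mo (fun l => c0 * u l) t.1 *
          (σ ^ 1 * ∏ l, RamCov.bas K (d k l) (opP (P l)) (t.2 l)))) =
        c0 ^ δ k * σ * ∑ t : MWS.Mo M (δ k) × RamCov.IxG (d k), a ⟨k, t⟩ *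
          (MWS.mo u t.1 * ∏ l, RamCov.bas K (d k l) (opP (P l)) (t.2 l)) := by
      rw [Finset.mul_sum]
      refine Finset.sum_congr rfl fun t _ => ?_
      rw [B3_mo]
      ring
    unfold sec at h
    rw [h2, h, mul_zero]
  rw [hz] at hrd
  exact hrd.unique Rf.zero

/-- PROOF.  As `adm_RBV` (PL2.lean; its private lemmas `PL2_scale`, `PL2_cf` copied): one scalar `c0` and one vector `y` for `u`; `sec_red` for `b` (`rf_res`, `int_mem`) and for `cf ω c`; `rdF_on`. -/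
theorem adm_RYV {K : Type} [Field K] [NumberField K] (N0 : ℕ) {g M w s e : ℕ} {A B : 𝓞 K} {δ : Fin w → ℕ}
    {d' : Fin w → Fin g → ℕ} (hd' : ∀ k l, 1 ≤ d' k l) (b : RamCov.IxC M δ d' → 𝓞 K) {ν : Fin s → ℕ}
    {d : Fin s → Fin g → ℕ} (hd : ∀ j l, 1 ≤ d j l) (ω : Fin e → 𝓞 K) (c : RamCov.IxC M ν d × Fin e → ℤ)
    (P : Fin g → Pt (A : K) (B : K)) (u : Fin (M + 1) → K) (hu : u ≠ 0)
    (hY : ∀ k, sec (fun t => ((b t : 𝓞 K) : K)) (fun l => opP (P l)) u k = 0)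
    (hj : ∀ j, sec (cf ω c) (fun l => opP (P l)) u j = 0) : AdmV N0 (RYV A B b ν d ω) c P := by
  intro v p _ hc _
  have := hc
  obtain ⟨c0, y', -, hy', hR⟩ := B3_scale (pV v) u hu
  refine ⟨fun l => rdF_on v A B (P l), y', hy', fun k => ?_, fun j => ?_⟩
  · exact sec_red v hd' (fun t => ((b t : 𝓞 K) : K)) (fun t => rf (pV v) ((b t : 𝓞 K) : K))
      (fun t => rf_res (int_mem (pV v) (b t))) P u c0 y' hR k (hY k)
  · exact sec_red v hd (cf ω c)
      (fun t => ∑ k, (ZMod.cast (((c (t, k) : ℤ)) : ZMod p) : RF v) * rf (pV v) ((ω k : 𝓞 K) : K))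
      (fun t => B3_cf (pV v) ω c t) P u c0 y' hR j (hj j)

end FB
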