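import Pool.Agent.Lib.MP_17a322_ntFY.B2
import Pool.Agent.Lib.MP_17a322_ntFB.PG

/-!
# LEAF C1: the density for the cyclic covers of `Y`
-/

namespace FB

open Finset NumberField VK IsDedekindDomain

/-- the local condition for the covers `γ w ^ q = F` of `Y` -/
def RCV {K : Type} [Field K] [NumberField K] (q : ℕ) (γ : 𝓞 K) {g M w e : ℕ} (A B : 𝓞 K) {δ : Fin w → ℕ}
    {d' : Fin w → Fin g → ℕ} (b : RamCov.IxC M δ d' → 𝓞 K) (n : ℕ) (d : Fin g → ℕ) (ω : Fin e → 𝓞 K) :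
    LocV K g (RamCov.IxC M (fun _ : Fin 1 => n) (fun _ => d) × Fin e) := fun v _ z =>
  {c | (∀ l, IsPt (rf (pV v) ((A : 𝓞 K) : K)) (rf (pV v) ((B : 𝓞 K) : K)) (z l)) ∧ ∃ y : Fin (M + 1) → RF v, y ≠ 0 ∧
    (∀ k, sec (fun t => rf (pV v) ((b t : 𝓞 K) : K)) z y k = 0) ∧ ∃ x : RF v, rf (pV v) ((γ : 𝓞 K) : K) * x ^ q =
      sec (fun t => ∑ k, (ZMod.cast (c (t, k)) : RF v) * rf (pV v) ((ω k : 𝓞 K) : K)) z y 0}

private theorem C1_root {K F : Type} [Field K] [Field F] [Finite F] (π : PF K F) {q p : ℕ} (hq : q.Prime)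
    (hqp : q < p) (hc : CharP F p) {ζ : K} (hζ : IsPrimitiveRoot ζ q) : q ∣ Nat.card F - 1 := by
  classical
  have hmem : ζ ∈ π.V := by
    refine mem_pow π (n := q) hq.one_lt.le ?_
    rw [hζ.pow_eq_one]
    exact π.V.one_mem
  have h1 : Rf π ζ (rf π ζ) := rf_res hmem
  have h2 : rf π ζ ^ q = 1 := by
    have h3 := h1.pow q
    rw [hζ.pow_eq_one] at h3
    exact h3.unique Rf.one
  have h4 : rf π ζ ≠ 1 := by
    intro h5
    have h6 : Rf π (∑ i ∈ Finset.range q, ζ ^ i) (∑ i ∈ Finset.range q, rf π ζ ^ i) :=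
      Rf.sum _ fun i _ => h1.pow i
    rw [hζ.geom_sum_eq_zero hq.one_lt, h5] at h6
    have h7 := h6.unique Rf.zero
    rw [Finset.sum_congr rfl fun i _ => one_pow (M := F) i, Finset.sum_const, Finset.card_range, nsmul_eq_mul,
      mul_one] at h7
    have h8 : p ∣ q := (CharP.cast_eq_zero_iff F p q).1 h7
    exact absurd (Nat.le_of_dvd hq.pos h8) (not_le.2 hqp)
  have h0 : rf π ζ ≠ 0 := by
    intro h5
    rw [h5, zero_pow hq.ne_zero] at h2
    exact zero_ne_one h2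
  have hF : Fintype F := Fintype.ofFinite F
  let u : Fˣ := Units.mk0 (rf π ζ) h0
  have hu : u ^ q = 1 := Units.ext h2
  have hu1 : u ≠ 1 := fun h => h4 (congrArg Units.val h)
  have hq' : Fact q.Prime := ⟨hq⟩
  have ho : orderOf u = q := orderOf_eq_prime hu hu1
  have hd := orderOf_dvd_card (x := u)
  rw [ho, Fintype.card_units, ← Nat.card_eq_fintype_card] at hd
  exact hd

private theorem C1_mo_smul {F : Type} [Field F] {m n : ℕ} (s : F) (u : Fin (m + 1) → F) (e : MWS.Mo m n) :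
    MWS.mo (s • u) e = s ^ n * MWS.mo u e := by
  unfold MWS.mo
  have h : ∀ i, (s • u) i ^ (e.1 i : ℕ) = s ^ (e.1 i : ℕ) * u i ^ (e.1 i : ℕ) := fun i => by
    rw [Pi.smul_apply, smul_eq_mul, mul_pow]
  rw [Finset.prod_congr rfl fun i _ => h i, Finset.prod_mul_distrib, Finset.prod_pow_eq_pow_sum, e.2]

private theorem C1_sec {F : Type} [Field F] {g M w : ℕ} {δ : Fin w → ℕ} {d' : Fin w → Fin g → ℕ}
    (b : RamCov.IxC M δ d' → F) (P : Fin g → Option (F × F)) (s : F) (u : Fin (M + 1) → F) (k : Fin w) :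
    sec b P (s • u) k = s ^ δ k * sec b P u k := by
  unfold sec
  rw [Finset.mul_sum]
  refine Finset.sum_congr rfl fun t _ => ?_
  rw [C1_mo_smul]
  ring

private theorem C1_ev {K : Type} [Field K] [NumberField K] (v : HeightOneSpectrum (𝓞 K)) {p : ℕ}
    (hc : CharP (RF v) p) {g M n e : ℕ} {d : Fin g → ℕ} (ω : Fin e → 𝓞 K) (z : Fin g → Option (RF v × RF v))
    (y : Fin (M + 1) → RF v) (c : RamCov.IxC M (fun _ : Fin 1 => n) (fun _ => d) × Fin e → ZMod p) :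
    sec (fun t => ∑ k, (ZMod.cast (c (t, k)) : RF v) * rf (pV v) ((ω k : 𝓞 K) : K)) z y 0 =
      evH v hc ω z y (fun t : (MWS.Mo M n × RamCov.IxG d) × Fin e => c (⟨0, t.1⟩, t.2)) := rfl

private theorem C1_card (M n e : ℕ) {g : ℕ} (d : Fin g → ℕ) :
    Fintype.card (RamCov.IxC M (fun _ : Fin 1 => n) (fun _ => d) × Fin e) =
      Fintype.card ((MWS.Mo M n × RamCov.IxG d) × Fin e) :=
  Fintype.card_congr
    { toFun := fun x => (x.1.2, x.2)
      invFun := fun x => (⟨0, x.1⟩, x.2)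
      left_inv := by
        rintro ⟨⟨j, t⟩, k⟩
        obtain rfl : j = 0 := Subsingleton.elim _ _
        rfl
      right_inv := fun x => rfl }

private theorem C1_compl {F : Type} [Field F] [Finite F] {q : ℕ} (hq : q.Prime) (hqF : q ∣ Nat.card F - 1)
    {a : F} (ha : a ≠ 0) :
    (Nat.card F : ℝ) ≤ 4 * Nat.card (({x | ∃ s : F, a * s ^ q = x} : Set F)ᶜ : Set F) := by
  have h2 := pow_dens hq hqF
  have h4 : Nat.card ({x | ∃ s : F, a * s ^ q = x} : Set F) = Nat.card {x : F // ∃ s : F, s ^ q = x} := by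
    refine Nat.card_congr
      { toFun := fun x => ⟨a⁻¹ * x.1, by
          obtain ⟨s, hs⟩ := x.2
          exact ⟨s, by rw [← hs, ← mul_assoc, inv_mul_cancel₀ ha, one_mul]⟩⟩
        invFun := fun x => ⟨a * x.1, by
          obtain ⟨s, hs⟩ := x.2
          exact ⟨s, by rw [hs]⟩⟩
        left_inv := fun x => Subtype.ext (by
          show a * (a⁻¹ * x.1) = x.1
          rw [← mul_assoc, mul_inv_cancel₀ ha, one_mul])
        right_inv := fun x => Subtype.ext (by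
          show a⁻¹ * (a * x.1) = x.1
          rw [← mul_assoc, inv_mul_cancel₀ ha, one_mul]) }
  have h5 : Nat.card ({x | ∃ s : F, a * s ^ q = x} : Set F) +
      Nat.card (({x | ∃ s : F, a * s ^ q = x} : Set F)ᶜ : Set F) = Nat.card F := by
    rw [Nat.card_coe_set_eq, Nat.card_coe_set_eq]
    exact Set.ncard_add_ncard_compl _
  rw [h4] at h5
  have h6 : (Nat.card {x : F // ∃ s : F, s ^ q = x} : ℝ) +
      (Nat.card (({x | ∃ s : F, a * s ^ q = x} : Set F)ᶜ : Set F) : ℝ) = (Nat.card F : ℝ) := by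
    exact_mod_cast h5
  have h7 : (0 : ℝ) ≤ (Nat.card F : ℝ) := Nat.cast_nonneg _
  linarith

/-- THE DENSITY.  PROOF.  `C`, `N0` of `cntY` with `r = 1`; `ν0 = 2 * C`, `κ = (1 / 4) ^ (2 * C)`, the bound for the primes is `q + 3 + Ideal.absNorm (Ideal.span {γ}) + N0 + 1`.  As in `dens_RYV`: `Z = {y ∈ S, Nrm y}` has at most `2 C` elements (`m = 0`), `evH_surj` for `T = Z` (`2 C ≤ n + 1`).  For
`q ∣ n` the condition at `y` only depends on the line of `y` (`F(l y) = l ^ n F(y)`, `l ^ n` is a `q`-th power), so `c ∈ RCV ..` iff there is `y ∈ Z` with `F(y) ∈ {γ x ^ q}`.  `all_res` with `S y = {a | ∃ x, γ x ^ q = a}`: the `q`-th powers are at most `2 / 3` of `RF v` (`pow_dens`, used in `dens_RAG`, PG.lean; `q ∣ Nat.card (RF v) - 1` is the private lemma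
`PG_root` there, copy it), so the complement has at least a quarter; `γ ≠ 0` in `RF v` by `unit_large`.  The reindexing `IxC M (fun _ : Fin 1 => n) (fun _ => d) × Fin e ≃ (MWS.Mo M n × IxG d) × Fin e`. -/
theorem dens_RCV {K : Type} [Field K] [NumberField K] {g M w : ℕ} {δ : Fin w → ℕ} {d' : Fin w → Fin g → ℕ}
    (A B : 𝓞 K) (b : RamCov.IxC M δ d' → 𝓞 K) (h : FibD A B b 1) : ∃ (ν0 N0 : ℕ) (κ : ℝ), 0 < κ ∧
      ∀ (q : ℕ) (ζ : K), q.Prime → IsPrimitiveRoot ζ q → ∀ γ : 𝓞 K, γ ≠ 0 → ∀ (n e : ℕ) (d : Fin g → ℕ)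
        (ω : Module.Basis (Fin e) ℤ (𝓞 K)), ν0 ≤ n → q ∣ n →
          DensV (q + 3 + Ideal.absNorm (Ideal.span {γ}) + N0) (RCV q γ A B b n d ω) κ := by
  classical
  obtain ⟨C, N0, hN0, hcnt⟩ := cntY A B b 1 h
  refine ⟨2 * C, N0, (1 / 4 : ℝ) ^ (2 * C), by positivity, ?_⟩
  intro q ζ hq hζ γ hγ n e d ω hn hqn v p hpp hc hp z
  have hfp : Fact p.Prime := ⟨hpp⟩
  have hfin : Finite (RF v) := finite_RF v
  have hft : Fintype (RF v) := Fintype.ofFinite _
  have hdiv : q ∣ Nat.card (RF v) - 1 := C1_root (pV v) hq (by omega : q < p) hc hζ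
  have hγ0 : rf (pV v) ((γ : 𝓞 K) : K) ≠ 0 := unit_large hγ hpp hc (by omega)
  have hκ1 : ((1 / 4 : ℝ)) ^ (2 * C) ≤ 1 := pow_le_one₀ (by norm_num) (by norm_num)
  by_cases hz : ∀ l, IsPt (rf (pV v) ((A : 𝓞 K) : K)) (rf (pV v) ((B : 𝓞 K) : K)) (z l)
  swap
  · have h1 : IsEmpty (RCV q γ A B b n d ω v p z) := ⟨fun c => hz c.2.1⟩
    rw [Nat.card_of_isEmpty, Nat.cast_zero]
    exact mul_nonneg (by linarith) (by positivity)
  obtain ⟨φ, hφ⟩ := rf_hom v
  have hN0' : ((N0 : ℕ) : RF v) ≠ 0 := by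
    intro h0
    have h1 : p ∣ N0 := (CharP.cast_eq_zero_iff (RF v) p N0).1 h0
    exact absurd (Nat.le_of_dvd (Nat.pos_of_ne_zero hN0) h1) (by omega)
  set S : Set (Fin (M + 1) → RF v) :=
    {y | ∀ k, sec (fun t => rf (pV v) ((b t : 𝓞 K) : K)) z y k = 0} with hSdef
  have hS : ∀ x ∈ S, ∀ l : RF v, l • x ∈ S := by
    intro x hx l k
    rw [C1_sec, hx k, mul_zero]
  have hb : (fun t => φ (b t)) = fun t => rf (pV v) ((b t : 𝓞 K) : K) := funext fun t => hφ _
  have hScard : Nat.card S ≤ C * Nat.card (RF v) ^ (0 + 1) := by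
    have h1 := hcnt (RF v) φ hN0' z (fun l => by rw [hφ, hφ]; exact hz l)
    rw [hb] at h1
    exact h1
  have hZcard := nrmF_card S hS hScard
  rw [pow_zero, mul_one] at hZcard
  set T : Finset (Fin (M + 1) → RF v) := Finset.univ.filter fun x => x ∈ S ∧ Nrm x with hT
  have hTcard : T.card ≤ 2 * C := by
    have h1 : Nat.card {x : Fin (M + 1) → RF v // x ∈ S ∧ Nrm x} = T.card := by
      rw [Nat.card_eq_fintype_card, Fintype.card_subtype]
    exact h1.symm.trans_le hZcard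
  have hTm : ∀ x, x ∈ T ↔ x ∈ S ∧ Nrm x := fun x => by
    rw [hT, Finset.mem_filter]
    exact and_iff_right (Finset.mem_univ _)
  have hsurj := evH_surj (n := n) (d := d) v hc ω z T (fun x hx => ((hTm x).1 hx).2) (by omega)
  have hfV : Finite ((MWS.Mo M n × RamCov.IxG d) × Fin e → ZMod p) := inferInstance
  have hall := all_res (2 * C) (Z := T) (fun x => evH (n := n) (d := d) v hc ω z x.1) hsurj
    (fun _ => {x | ∃ s : RF v, rf (pV v) ((γ : 𝓞 K) : K) * s ^ q = x}) (fun _ => C1_compl hq hdiv hγ0) (by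
      rw [Nat.card_eq_fintype_card, Fintype.card_coe]
      exact hTcard)
  have hle : Nat.card (RCV q γ A B b n d ω v p z) ≤
      Nat.card {c : (MWS.Mo M n × RamCov.IxG d) × Fin e → ZMod p // ∃ x : T, evH v hc ω z x.1 c ∈
        ({x | ∃ s : RF v, rf (pV v) ((γ : 𝓞 K) : K) * s ^ q = x} : Set (RF v))} := by
    refine Nat.card_le_card_of_injective
      (fun c => ⟨fun t : (MWS.Mo M n × RamCov.IxG d) × Fin e => c.1 (⟨0, t.1⟩, t.2), ?_⟩) ?_
    · obtain ⟨-, y, hy0, hyS, x, hx⟩ := c.2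
      obtain ⟨l, hl0, hl⟩ := nrm_ex hy0
      obtain ⟨m, hm⟩ := hqn
      refine ⟨⟨l • y, (hTm _).2 ⟨hS y hyS l, hl⟩⟩, l ^ m * x, ?_⟩
      have h1 := C1_ev (n := n) (d := d) v hc ω z (l • y) c.1
      rw [C1_sec] at h1
      have h2 : ((l ^ m * x) ^ q : RF v) = l ^ n * x ^ q := by
        rw [mul_pow, ← pow_mul, hm, mul_comm q m]
      show rf (pV v) ((γ : 𝓞 K) : K) * (l ^ m * x) ^ q =
        evH v hc ω z (l • y) (fun t : (MWS.Mo M n × RamCov.IxG d) × Fin e => c.1 (⟨0, t.1⟩, t.2))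
      rw [← h1, ← hx, h2]
      ring
    · intro c c' hcc
      have h1 := congrArg Subtype.val hcc
      refine Subtype.ext (funext ?_)
      rintro ⟨⟨j, t⟩, k⟩
      obtain rfl : j = 0 := Subsingleton.elim _ _
      exact congrFun h1 (t, k)
  have hV : (Nat.card ((MWS.Mo M n × RamCov.IxG d) × Fin e → ZMod p) : ℝ) =
      (p : ℝ) ^ Fintype.card (RamCov.IxC M (fun _ : Fin 1 => n) (fun _ => d) × Fin e) := by
    rw [C1_card, Nat.card_fun, Nat.card_zmod, Nat.card_eq_fintype_card, Nat.cast_pow]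
  rw [← hV]
  exact le_trans (by exact_mod_cast hle) hall

end FB
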