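import Pool.Agent.Lib.MP_17a322_ntFY.C1
import Pool.Agent.Lib.MP_17a322_ntFY.B3

/-!
# LEAF C2: a point of a cyclic cover satisfies the local conditions
-/

namespace FB

open Finset NumberField VK IsDedekindDomain

private theorem C2_scale {K F : Type} [Field K] [Field F] (π : PF K F) {s : ℕ} (y : Fin s → K) (hy : y ≠ 0) :
    ∃ (c : K) (y' : Fin s → F), c ≠ 0 ∧ y' ≠ 0 ∧ ∀ l, Rf π (c * y l) (y' l) := by
  obtain ⟨i, hi⟩ := Function.ne_iff.1 hy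
  obtain ⟨k, -, hk⟩ := Finset.exists_max_image Finset.univ (fun l => π.V.valuation (y l)) ⟨i, Finset.mem_univ i⟩
  have hk0 : y k ≠ 0 := by
    intro h1
    have h2 := hk i (Finset.mem_univ i)
    rw [h1, map_zero] at h2
    exact hi (π.V.valuation.zero_iff.1 (le_antisymm h2 zero_le))
  have hm : ∀ l, (y k)⁻¹ * y l ∈ π.V := by
    intro l
    rw [← ValuationSubring.valuation_le_one_iff, map_mul, map_inv₀]
    have h2 := hk l (Finset.mem_univ l)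
    have h3 : π.V.valuation (y k) ≠ 0 := (π.V.valuation.ne_zero_iff).2 hk0
    calc (π.V.valuation (y k))⁻¹ * π.V.valuation (y l)
        ≤ (π.V.valuation (y k))⁻¹ * π.V.valuation (y k) := mul_le_mul_right h2 _
      _ = 1 := inv_mul_cancel₀ h3
  refine ⟨(y k)⁻¹, fun l => π.ρ ⟨_, hm l⟩, inv_ne_zero hk0, ?_, fun l => ⟨hm l, rfl⟩⟩
  intro h1
  have h2 : π.ρ ⟨_, hm k⟩ = 0 := congrFun h1 k
  have h3 : Rf π ((y k)⁻¹ * y k) 0 := ⟨hm k, h2⟩
  rw [inv_mul_cancel₀ hk0] at h3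
  exact one_ne_zero (Rf.one.unique h3 : (1 : F) = 0)

private theorem C2_cf {K F : Type} [Field K] [NumberField K] [Field F] {p : ℕ} [CharP F p] (π : PF K F)
    {τ : Type} {e : ℕ} (ω : Fin e → 𝓞 K) (c : τ × Fin e → ℤ) (t : τ) :
    Rf π (cf ω c t) (∑ k, (ZMod.cast (((c (t, k) : ℤ)) : ZMod p) : F) * rf π ((ω k : 𝓞 K) : K)) := by
  have h1 := el_rf π ω (fun k => c (t, k))
  have h2 : (∑ k, (ZMod.cast (((c (t, k) : ℤ)) : ZMod p) : F) * rf π ((ω k : 𝓞 K) : K))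
      = ∑ k, ((c (t, k) : ℤ) : F) * rf π ((ω k : 𝓞 K) : K) := by
    refine Finset.sum_congr rfl fun k _ => ?_
    rw [ZMod.cast_intCast']
  rw [h2]
  exact h1

private theorem C2_mo {K : Type} [Field K] {m n : ℕ} (c : K) (u : Fin (m + 1) → K) (e : MWS.Mo m n) :
    MWS.mo (fun l => c * u l) e = c ^ n * MWS.mo u e := by
  unfold MWS.mo
  simp only [mul_pow]
  rw [Finset.prod_mul_distrib, Finset.prod_pow_eq_pow_sum, e.2]

private theorem C2_mo_rf {K F : Type} [Field K] [Field F] {π : PF K F} {m n : ℕ} {u : Fin (m + 1) → K}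
    {y : Fin (m + 1) → F} (h : ∀ l, Rf π (u l) (y l)) (e : MWS.Mo m n) :
    Rf π (MWS.mo u e) (MWS.mo y e) :=
  Rf.prod _ fun l _ => (h l).pow _

private theorem C2_pow {K F : Type} [Field K] [Field F] {π : PF K F} {q : ℕ} (hq : 1 ≤ q) {γ w v₀ : K} {γ' v : F}
    (hγ : Rf π γ γ') (hγ0 : γ' ≠ 0) (hv : Rf π v₀ v) (h : γ * w ^ q = v₀) : ∃ s : F, γ' * s ^ q = v := by
  by_cases hw : w ∈ π.V
  · have h1 := rf_res hw
    have h2 := hγ.mul (h1.pow q)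
    rw [h] at h2
    exact ⟨_, h2.unique hv⟩
  · have hw0 : w ≠ 0 := by
      intro h1
      rw [h1] at hw
      exact hw π.V.zero_mem
    have h1 : w⁻¹ ∈ π.V := (π.V.mem_or_inv_mem w).resolve_left hw
    have h2 : Rf π w⁻¹ 0 := ⟨h1, π.ker ⟨w⁻¹, h1⟩ (by
      show (w⁻¹)⁻¹ ∉ π.V
      rw [inv_inv]
      exact hw)⟩
    have h3 := hv.mul (h2.pow q)
    rw [← h, mul_assoc, ← mul_pow, mul_inv_cancel₀ hw0, one_pow, mul_one, zero_pow (by omega), mul_zero] at h3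
    exact absurd (hγ.unique h3) hγ0

/-- PROOF.  As `adm_RAG` (PG.lean; its private lemmas `PG_cf`, `PG_pow` copied) and `adm_RYV` (B3.lean): `c0`, `y` for `u` (`PL2_scale` copied), the points of `Y` by `sec_red`; `bas_redG` with the given `q ∣ 2 d l` gives `σ`, and with `q ∣ n`, `n = q n'`, the value `c0 ^ n σ ^ q F(P, u) = γ (c0 ^ n' σ w) ^ q` reduces to the value
of the reduced section at `(rdF P, y)`. -/
theorem adm_RCV {K : Type} [Field K] [NumberField K] {N0 q : ℕ} (hq : 1 ≤ q) {γ : 𝓞 K} (hγ : γ ≠ 0)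
    (hN : Ideal.absNorm (Ideal.span {γ}) < N0) {g M w e n : ℕ} {A B : 𝓞 K} {δ : Fin w → ℕ} {d' : Fin w → Fin g → ℕ}
    (hd' : ∀ k l, 1 ≤ d' k l) (b : RamCov.IxC M δ d' → 𝓞 K) {d : Fin g → ℕ} (hd : ∀ l, 1 ≤ d l) (hqn : q ∣ n)
    (hqd : ∀ l, q ∣ 2 * d l) (ω : Fin e → 𝓞 K) (c : RamCov.IxC M (fun _ : Fin 1 => n) (fun _ => d) × Fin e → ℤ)
    (P : Fin g → Pt (A : K) (B : K)) (u : Fin (M + 1) → K) (hu : u ≠ 0)
    (hY : ∀ k, sec (fun t => ((b t : 𝓞 K) : K)) (fun l => opP (P l)) u k = 0) (x : K)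
    (hx : ((γ : 𝓞 K) : K) * x ^ q = sec (cf ω c) (fun l => opP (P l)) u 0) :
    AdmV N0 (RCV q γ A B b n d ω) c P := by
  intro v p hp hc hpN
  have := hc
  obtain ⟨c0, y, -, hy, hR⟩ := C2_scale (pV v) u hu
  obtain ⟨n', hn'⟩ := hqn
  refine ⟨fun l => rdF_on v A B (P l), y, hy, fun k => ?_, ?_⟩
  · exact sec_red v hd' (fun t => ((b t : 𝓞 K) : K)) (fun t => rf (pV v) ((b t : 𝓞 K) : K))
      (fun t => rf_res (int_mem (pV v) (b t))) P u c0 y hR k (hY k)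
  · obtain ⟨σ, -, hσ⟩ := bas_redG (pV v) (int_mem (pV v) A) (int_mem (pV v) B) hd hqd P
    have h1 : ((γ : 𝓞 K) : K) * (c0 ^ n' * σ * x) ^ q =
        ∑ t : MWS.Mo M n × RamCov.IxG d, cf ω c ⟨0, t⟩ * (MWS.mo (fun l => c0 * u l) t.1 *
          (σ ^ q * ∏ l, RamCov.bas K (d l) (opP (P l)) (t.2 l))) := by
      have h2 : (∑ t : MWS.Mo M n × RamCov.IxG d, cf ω c ⟨0, t⟩ * (MWS.mo (fun l => c0 * u l) t.1 *
          (σ ^ q * ∏ l, RamCov.bas K (d l) (opP (P l)) (t.2 l)))) =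
          (c0 ^ n * σ ^ q) * sec (cf ω c) (fun l => opP (P l)) u 0 := by
        unfold sec
        rw [Finset.mul_sum]
        refine Finset.sum_congr rfl fun t _ => ?_
        rw [C2_mo]
        ring
      rw [h2, ← hx, hn']
      ring
    have h3 : Rf (pV v) (∑ t : MWS.Mo M n × RamCov.IxG d, cf ω c ⟨0, t⟩ *
        (MWS.mo (fun l => c0 * u l) t.1 * (σ ^ q * ∏ l, RamCov.bas K (d l) (opP (P l)) (t.2 l))))
        (∑ t : MWS.Mo M n × RamCov.IxG d,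
          (∑ k, (ZMod.cast (((c (⟨0, t⟩, k) : ℤ)) : ZMod p) : RF v) * rf (pV v) ((ω k : 𝓞 K) : K)) *
          (MWS.mo y t.1 * ∏ l, RamCov.bas (RF v) (d l) (rdF (pV v) (P l)) (t.2 l))) :=
      Rf.sum _ fun t _ => (C2_cf (pV v) ω c ⟨0, t⟩).mul ((C2_mo_rf hR t.1).mul (hσ t.2))
    exact C2_pow hq (rf_res (int_mem (pV v) γ)) (unit_large hγ hp hc (by omega)) h3 h1

end FB
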