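import Pool.Agent.Lib.MP_17a322_ntFY.B3
import Pool.Agent.Lib.MP_17a322_ntFY.C2
import Pool.Agent.Lib.MP_17a322_ntFB.PLK
import Pool.Agent.Lib.MP_17a322_ntFB.PM2

/-!
# Cyclic covers and complete intersections in any fixed variety over the powers of a fixed elliptic curve
-/

namespace FB

open Finset NumberField VK IsDedekindDomain

private theorem M_finite {ι : Type} [Fintype ι] (H : ℕ) (X : (ι → ℤ) → Prop) :
    Finite {a : ι → ℤ // (∀ i, |a i| ≤ (H : ℤ)) ∧ X a} := by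
  have h1 : Finite {a : ι → ℤ // ∀ i, |a i| ≤ (H : ℤ)} := by
    have h2 : Set.Finite {a : ι → ℤ | ∀ i, |a i| ≤ (H : ℤ)} := by
      refine Set.Finite.subset (Set.Finite.pi (fun _ => Set.finite_Icc (-(H : ℤ)) H)) fun a ha i _ => ?_
      exact Set.mem_Icc.2 (abs_le.1 (ha i))
    exact h2
  exact Finite.of_injective (β := {a : ι → ℤ // ∀ i, |a i| ≤ (H : ℤ)}) (fun a => ⟨a.1, a.2.1⟩)
    fun a b hab => Subtype.ext (congrArg (fun x => x.1) hab)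

private theorem M_mono {ι : Type} [Fintype ι] (H : ℕ) (X Y : (ι → ℤ) → Prop) (h : ∀ a, X a → Y a) :
    Nat.card {a : ι → ℤ // (∀ i, |a i| ≤ (H : ℤ)) ∧ X a} ≤ Nat.card {a : ι → ℤ // (∀ i, |a i| ≤ (H : ℤ)) ∧ Y a} := by
  have := M_finite H Y
  exact Nat.card_le_card_of_injective (fun a => ⟨a.1, a.2.1, h _ a.2.2⟩)
    fun a b hab => Subtype.ext (congrArg (fun x => x.1) hab)

private theorem M_union {ι : Type} [Fintype ι] (H : ℕ) {n : ℕ} (X : (ι → ℤ) → Prop) (Y : Fin n → (ι → ℤ) → Prop)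
    (h : ∀ a, X a → ∃ i, Y i a) :
    Nat.card {a : ι → ℤ // (∀ i, |a i| ≤ (H : ℤ)) ∧ X a} ≤
      ∑ i, Nat.card {a : ι → ℤ // (∀ i, |a i| ≤ (H : ℤ)) ∧ Y i a} := by
  have := fun i => M_finite H (Y i)
  rw [← Nat.card_sigma]
  have hex : ∀ a : {a : ι → ℤ // (∀ i, |a i| ≤ (H : ℤ)) ∧ X a}, ∃ i : Fin n, (∀ i, |a.1 i| ≤ (H : ℤ)) ∧ Y i a.1 := by
    rintro ⟨a, ha, hX⟩
    obtain ⟨i, hi⟩ := h a hX
    exact ⟨i, ha, hi⟩
  choose f hf using hex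
  refine Nat.card_le_card_of_injective (fun a => (⟨f a, a.1, hf a⟩ : Σ i : Fin n,
    {a : ι → ℤ // (∀ i, |a i| ≤ (H : ℤ)) ∧ Y i a})) ?_
  intro a b hab
  exact Subtype.ext (congrArg (fun x => x.2.1) hab)

/-- complete intersections in `Y` -/
theorem comY {K : Type} [Field K] [NumberField K] [DecidableEq K] {A B : 𝓞 K} (hd : ds A B ≠ 0)
    (Γ : AddSubgroup (Pt (A : K) (B : K))) (hΓ : Module.finrank ℤ Γ ≤ 1) {g M w m : ℕ} {δ : Fin w → ℕ}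
    {d' : Fin w → Fin g → ℕ} (hd' : ∀ k l, 1 ≤ d' k l) (b : RamCov.IxC M δ d' → 𝓞 K) (h : FibD A B b (m + 1)) :
    ∃ (c : ℝ) (ν0 : ℕ), 0 < c ∧ ∀ (s : ℕ) (ν : Fin s → ℕ) (d : Fin s → Fin g → ℕ), m ≤ s → (∀ j, 1 ≤ ν j) →
      (∃ j, ν0 ≤ ν j) → (∀ j l, 1 ≤ d j l) → ∀ (e : ℕ) (ω : Module.Basis (Fin e) ℤ (𝓞 K)), ∃ C : ℝ, ∀ H : ℕ, 1 ≤ H →
      (cnt H (ComFY ω Γ b (ν := ν) (d := d)) : ℝ) ≤
        C * (H : ℝ) ^ (e * Fintype.card (RamCov.IxC M ν d)) * Real.exp (-(c * (Real.log (Real.log H)) ^ 2)) := by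
  classical
  obtain ⟨ν0, N0, κ, hκ, hdens⟩ := dens_RYV A B b h
  obtain ⟨c, hc, hK⟩ := conclK hd Γ hΓ hκ
  refine ⟨c, ν0, hc, fun s ν d hms hν hν0 hd1 e ω => ?_⟩
  obtain ⟨C, hC⟩ := hK g N0 (Fintype.card (RamCov.IxC M ν d × Fin e))
  refine ⟨C, fun H hH => ?_⟩
  have h1 := hC H hH _ rfl (RYV A B b ν d ω) (hdens s e ν d ω hms hν hν0)
  rw [Fintype.card_prod, Fintype.card_fin, mul_comm (Fintype.card (RamCov.IxC M ν d))] at h1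
  refine le_trans ?_ h1
  have h2 := M_mono (ι := RamCov.IxC M ν d × Fin e) H (ComFY ω Γ b (ν := ν) (d := d))
    (fun a => ∃ P : Fin g → Pt (A : K) (B : K), (∀ l, P l ∈ Γ) ∧ AdmV N0 (RYV A B b ν d ω) a P) (by
      rintro a ⟨P, hP, u, hu, hY, hj⟩
      exact ⟨P, hP, adm_RYV N0 hd' b hd1 ω a P u hu hY hj⟩)
  exact_mod_cast h2

/-- cyclic covers of `Y` -/
theorem covY {K : Type} [Field K] [NumberField K] [DecidableEq K] {A B : 𝓞 K} (hd : ds A B ≠ 0)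
    (Γ : AddSubgroup (Pt (A : K) (B : K))) (hΓ : Module.finrank ℤ Γ ≤ 1) {g M w : ℕ} {δ : Fin w → ℕ}
    {d' : Fin w → Fin g → ℕ} (hd' : ∀ k l, 1 ≤ d' k l) (b : RamCov.IxC M δ d' → 𝓞 K) (h : FibD A B b 1) :
    ∃ (c : ℝ) (ν0 : ℕ), 0 < c ∧ ∀ (r q : ℕ) (ζ : K), q.Prime → q ∣ r → IsPrimitiveRoot ζ q → ∀ G : Subgroup Kˣ, G.FG →
      ∀ (n : ℕ) (d : Fin g → ℕ), ν0 ≤ n → r ∣ n → (∀ l, 1 ≤ d l) → (∀ l, r ∣ 2 * d l) →
      ∀ (e : ℕ) (ω : Module.Basis (Fin e) ℤ (𝓞 K)), ∃ C : ℝ, ∀ H : ℕ, 1 ≤ H →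
      (cnt H (CovFY ω Γ G r b (n := n) (d := d)) : ℝ) ≤
        C * (H : ℝ) ^ (e * Fintype.card (RamCov.IxC M (fun _ : Fin 1 => n) (fun _ => d))) *
          Real.exp (-(c * (Real.log (Real.log H)) ^ 2)) := by
  classical
  obtain ⟨ν0, N0, κ, hκ, hdens⟩ := dens_RCV A B b h
  obtain ⟨c, hc, hK⟩ := conclK hd Γ hΓ hκ
  refine ⟨c, ν0, hc, fun r q ζ hq hqr hζ G hG n d hn hrn hd1 hrd e ω => ?_⟩
  have hqd : ∀ l, q ∣ 2 * d l := fun l => hqr.trans (hrd l)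
  obtain ⟨k, γ, hγ, hcl⟩ := clsG G hG hq.one_le
  choose C hC using fun i : Fin k => hK g (q + 3 + Ideal.absNorm (Ideal.span {γ i}) + N0)
    (Fintype.card (RamCov.IxC M (fun _ : Fin 1 => n) (fun _ => d) × Fin e))
  refine ⟨∑ i, C i, fun H hH => ?_⟩
  have h1 : ∀ i : Fin k, (Nat.card {a : RamCov.IxC M (fun _ : Fin 1 => n) (fun _ => d) × Fin e → ℤ //
      (∀ i, |a i| ≤ (H : ℤ)) ∧ ∃ P : Fin g → Pt (A : K) (B : K), (∀ l, P l ∈ Γ) ∧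
        AdmV (q + 3 + Ideal.absNorm (Ideal.span {γ i}) + N0) (RCV q (γ i) A B b n d ω) a P} : ℝ) ≤
      C i * (H : ℝ) ^ (e * Fintype.card (RamCov.IxC M (fun _ : Fin 1 => n) (fun _ => d))) *
        Real.exp (-(c * (Real.log (Real.log H)) ^ 2)) := by
    intro i
    have h2 := hC i H hH _ rfl (RCV q (γ i) A B b n d ω) (hdens q ζ hq hζ (γ i) (hγ i) n e d ω hn (hqr.trans hrn))
    rw [Fintype.card_prod, Fintype.card_fin, mul_comm (Fintype.card (RamCov.IxC M (fun _ : Fin 1 => n) (fun _ => d)))] at h2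
    exact h2
  have h3 := M_union (ι := RamCov.IxC M (fun _ : Fin 1 => n) (fun _ => d) × Fin e) H (CovFY ω Γ G r b (n := n) (d := d))
    (fun (i : Fin k) a => ∃ P : Fin g → Pt (A : K) (B : K), (∀ l, P l ∈ Γ) ∧
        AdmV (q + 3 + Ideal.absNorm (Ideal.span {γ i}) + N0) (RCV q (γ i) A B b n d ω) a P) (by
      rintro a ⟨P, hP, u, hu, hY, x, hx, y, hy⟩
      obtain ⟨i, z, hz⟩ := hcl x hx
      obtain ⟨t, rfl⟩ := hqr
      refine ⟨i, P, hP, ?_⟩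
      refine adm_RCV hq.one_le (hγ i) (by omega) hd' b hd1 ((dvd_mul_right q t).trans hrn) hqd ω a P u hu hY (z * y ^ t) ?_
      rw [← hy, hz, mul_pow, ← pow_mul, mul_comm t q]
      ring)
  calc (cnt H (CovFY ω Γ G r b (n := n) (d := d)) : ℝ) ≤ ((∑ i : Fin k,
        Nat.card {a : RamCov.IxC M (fun _ : Fin 1 => n) (fun _ => d) × Fin e → ℤ //
      (∀ i, |a i| ≤ (H : ℤ)) ∧ ∃ P : Fin g → Pt (A : K) (B : K), (∀ l, P l ∈ Γ) ∧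
        AdmV (q + 3 + Ideal.absNorm (Ideal.span {γ i}) + N0) (RCV q (γ i) A B b n d ω) a P} : ℕ) : ℝ) := by
        exact_mod_cast h3
    _ ≤ ∑ i : Fin k, C i * (H : ℝ) ^ (e * Fintype.card (RamCov.IxC M (fun _ : Fin 1 => n) (fun _ => d))) *
        Real.exp (-(c * (Real.log (Real.log H)) ^ 2)) := by
        push_cast
        exact Finset.sum_le_sum fun i _ => h1 i
    _ = _ := by rw [← Finset.sum_mul, ← Finset.sum_mul]

end FB
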